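import Mathlib

/-!
Estimates for polynomials `∑ u n z ^ n / √(n!)` on thin neighbourhoods of the real line.
-/

set_option autoImplicit false

open Complex Real

namespace Pool.Agent.H67g

/-- The polynomial `∑ u n z ^ n / √(n!)`. -/
noncomputable def PP {N : ℕ} (u : Fin N → ℂ) (z : ℂ) : ℂ :=
  ∑ n : Fin N, u n * (z ^ (n : ℕ) / (Real.sqrt ((n : ℕ).factorial) : ℂ))

lemma term_le (x : ℝ) (hx : 0 ≤ x) (n : ℕ) :
    x ^ n / Real.sqrt (n.factorial) ≤ Real.exp (x ^ 2 / 2) := by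
  have h1 := Real.pow_div_factorial_le_exp (x ^ 2) (sq_nonneg x) n
  have hf : (0 : ℝ) < n.factorial := by exact_mod_cast Nat.factorial_pos n
  have h2 : (x ^ n / Real.sqrt (n.factorial)) ^ 2 ≤ (Real.exp (x ^ 2 / 2)) ^ 2 := by
    rw [div_pow, Real.sq_sqrt hf.le, ← pow_mul, mul_comm n 2, pow_mul, ← Real.exp_nat_mul]
    calc (x ^ 2) ^ n / n.factorial ≤ Real.exp (x ^ 2) := h1
      _ = Real.exp ((2 : ℕ) * (x ^ 2 / 2)) := by congr 1; push_cast; ring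
  exact le_of_sq_le_sq h2 (Real.exp_pos _).le

lemma PP_norm_le {N : ℕ} {u : Fin N → ℂ} (hu : ∀ n, ‖u n‖ ≤ 1) (z : ℂ) :
    ‖PP u z‖ ≤ N * Real.exp (‖z‖ ^ 2 / 2) := by
  unfold PP
  refine (norm_sum_le _ _).trans ?_
  calc ∑ n : Fin N, ‖u n * (z ^ (n : ℕ) / (Real.sqrt ((n : ℕ).factorial) : ℂ))‖
      ≤ ∑ _n : Fin N, Real.exp (‖z‖ ^ 2 / 2) := by
        refine Finset.sum_le_sum fun n _ => ?_
        rw [norm_mul, norm_div, norm_pow, Complex.norm_real, Real.norm_of_nonneg (Real.sqrt_nonneg _)]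
        have h1 := term_le ‖z‖ (norm_nonneg z) n
        have h0 : 0 ≤ ‖z‖ ^ (n : ℕ) / Real.sqrt ((n : ℕ).factorial) := by positivity
        calc ‖u n‖ * (‖z‖ ^ (n : ℕ) / Real.sqrt ((n : ℕ).factorial))
            ≤ 1 * (‖z‖ ^ (n : ℕ) / Real.sqrt ((n : ℕ).factorial)) :=
              mul_le_mul_of_nonneg_right (hu n) h0
          _ ≤ _ := by rw [one_mul]; exact h1
    _ = N * Real.exp (‖z‖ ^ 2 / 2) := by simp

/-- The polynomial seen from the real centre `c`. -/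
noncomputable def hh {N : ℕ} (u : Fin N → ℂ) (c : ℝ) (w : ℂ) : ℂ :=
  PP u (c + w) * Complex.exp (-(c * w) - c ^ 2 / 2)

lemma norm_exp_aux (c : ℝ) (w : ℂ) :
    ‖Complex.exp (-(c * w) - c ^ 2 / 2)‖ = Real.exp (-(c * w.re) - c ^ 2 / 2) := by
  rw [Complex.norm_exp]
  congr 1
  simp [Complex.sub_re, Complex.neg_re, Complex.mul_re, ← Complex.ofReal_pow]

lemma norm_sq_aux (c : ℝ) (w : ℂ) : ‖(c : ℂ) + w‖ ^ 2 = c ^ 2 + 2 * c * w.re + ‖w‖ ^ 2 := by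
  rw [Complex.sq_norm, Complex.sq_norm, Complex.normSq_apply, Complex.normSq_apply]
  simp
  ring

lemma hh_norm_le {N : ℕ} {u : Fin N → ℂ} (hu : ∀ n, ‖u n‖ ≤ 1) (c : ℝ) (w : ℂ) :
    ‖hh u c w‖ ≤ N * Real.exp (‖w‖ ^ 2 / 2) := by
  unfold hh
  rw [norm_mul, norm_exp_aux]
  calc ‖PP u (c + w)‖ * Real.exp (-(c * w.re) - c ^ 2 / 2)
      ≤ (N * Real.exp (‖(c : ℂ) + w‖ ^ 2 / 2)) * Real.exp (-(c * w.re) - c ^ 2 / 2) :=
        mul_le_mul_of_nonneg_right (PP_norm_le hu _) (Real.exp_pos _).le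
    _ = N * Real.exp (‖w‖ ^ 2 / 2) := by
        rw [mul_assoc, ← Real.exp_add, norm_sq_aux]
        congr 2
        ring

lemma PP_eq_hh {N : ℕ} (u : Fin N → ℂ) (c : ℝ) (w : ℂ) :
    ‖PP u (c + w)‖ ≤ ‖hh u c w‖ * Real.exp (‖(c : ℂ) + w‖ ^ 2 / 2) := by
  unfold hh
  rw [norm_mul, norm_exp_aux, mul_assoc, ← Real.exp_add, norm_sq_aux]
  have : 1 ≤ Real.exp (-(c * w.re) - c ^ 2 / 2 + (c ^ 2 + 2 * c * w.re + ‖w‖ ^ 2) / 2) := by
    apply Real.one_le_exp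
    nlinarith [sq_nonneg ‖w‖]
  calc ‖PP u (c + w)‖ = ‖PP u (c + w)‖ * 1 := by rw [mul_one]
    _ ≤ _ := mul_le_mul_of_nonneg_left this (norm_nonneg _)

lemma hh_differentiable {N : ℕ} (u : Fin N → ℂ) (c : ℝ) : Differentiable ℂ (hh u c) := by
  unfold hh PP
  fun_prop

lemma hh_sub {N : ℕ} (u v : Fin N → ℂ) (c : ℝ) : hh (u - v) c = hh u c - hh v c := by
  ext w
  simp only [hh, PP, Pi.sub_apply, sub_mul, Finset.sum_sub_distrib]

/-- The normalized jets. -/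
noncomputable def jet {N : ℕ} (ρ : ℝ) (u : Fin N → ℂ) (c : ℝ) (m : ℕ) : ℂ :=
  (ρ ^ m / (m.factorial : ℝ) : ℝ) • iteratedDeriv m (hh u c) 0

lemma jet_sub {N : ℕ} (ρ : ℝ) (u v : Fin N → ℂ) (c : ℝ) (m : ℕ) :
    jet ρ (u - v) c m = jet ρ u c m - jet ρ v c m := by
  unfold jet
  rw [hh_sub, iteratedDeriv_sub ((hh_differentiable u c).contDiff.contDiffAt)
    ((hh_differentiable v c).contDiff.contDiffAt), smul_sub]

lemma jet_norm_le {N : ℕ} {ρ : ℝ} (hρ : 0 < ρ) {u : Fin N → ℂ} (hu : ∀ n, ‖u n‖ ≤ 1) (c : ℝ)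
    (m : ℕ) : ‖jet ρ u c m‖ ≤ N * Real.exp (9 / 2 * ρ ^ 2) * (1 / 3) ^ m := by
  have hR : 0 < 3 * ρ := by positivity
  have h1 := Complex.norm_iteratedDeriv_le_of_forall_mem_sphere_norm_le m hR
    ((hh_differentiable u c).diffContOnCl) (C := N * Real.exp (9 / 2 * ρ ^ 2)) (c := 0) (by
      intro w hw
      rw [mem_sphere_zero_iff_norm] at hw
      refine (hh_norm_le hu c w).trans (le_of_eq ?_)
      rw [hw]; congr 2; ring)
  unfold jet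
  have hf : (0 : ℝ) < m.factorial := by exact_mod_cast Nat.factorial_pos m
  rw [norm_smul, Real.norm_of_nonneg (by positivity)]
  calc ρ ^ m / (m.factorial : ℝ) * ‖iteratedDeriv m (hh u c) 0‖
      ≤ ρ ^ m / (m.factorial : ℝ) *
          (m.factorial * (N * Real.exp (9 / 2 * ρ ^ 2)) / (3 * ρ) ^ m) :=
        mul_le_mul_of_nonneg_left h1 (by positivity)
    _ = N * Real.exp (9 / 2 * ρ ^ 2) * (1 / 3) ^ m := by
        rw [mul_pow, one_div, inv_pow]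
        field_simp

/-- If the first `M` jets are small then the function is small. -/
lemma hh_small {N : ℕ} {ρ : ℝ} (hρ : 0 < ρ) {u : Fin N → ℂ} (hu : ∀ n, ‖u n‖ ≤ 1) (c : ℝ)
    (M : ℕ) {η : ℝ} (hj : ∀ m < M, ‖jet ρ u c m‖ ≤ η) {w : ℂ} (hw : ‖w‖ ≤ ρ) :
    ‖hh u c w‖ ≤ M * η + N * Real.exp (9 / 2 * ρ ^ 2) * (1 / 3) ^ M * (3 / 2) := by
  have hs := Complex.hasSum_taylorSeries_of_entire (hh_differentiable u c) 0 w
  have hterm : ∀ m, ‖((m.factorial : ℂ)⁻¹ • (w - 0) ^ m • iteratedDeriv m (hh u c) 0)‖ ≤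
      ‖jet ρ u c m‖ := by
    intro m
    have hf : (0 : ℝ) < m.factorial := by exact_mod_cast Nat.factorial_pos m
    unfold jet
    rw [sub_zero, norm_smul, norm_smul, norm_smul, norm_inv, norm_pow, Complex.norm_natCast,
      Real.norm_of_nonneg (by positivity : (0 : ℝ) ≤ ρ ^ m / (m.factorial : ℝ)), ← mul_assoc]
    apply mul_le_mul_of_nonneg_right _ (norm_nonneg _)
    rw [div_eq_inv_mul]
    exact mul_le_mul_of_nonneg_left (pow_le_pow_left₀ (norm_nonneg _) hw m) (by positivity)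
  have hs2 := (hasSum_nat_add_iff' M).2 hs
  have hg : HasSum (fun m : ℕ => N * Real.exp (9 / 2 * ρ ^ 2) * (1 / 3 : ℝ) ^ (m + M))
      (N * Real.exp (9 / 2 * ρ ^ 2) * (1 / 3) ^ M * (3 / 2)) := by
    have h1 := (hasSum_geometric_of_lt_one (r := (1 / 3 : ℝ)) (by norm_num) (by norm_num)).mul_left
      (N * Real.exp (9 / 2 * ρ ^ 2) * (1 / 3) ^ M)
    have h2 : (1 - 1 / 3 : ℝ)⁻¹ = 3 / 2 := by norm_num
    rw [h2] at h1
    have h5 : (fun m : ℕ => N * Real.exp (9 / 2 * ρ ^ 2) * (1 / 3 : ℝ) ^ (m + M)) =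
        fun i => N * Real.exp (9 / 2 * ρ ^ 2) * (1 / 3) ^ M * (1 / 3) ^ i := by
      funext i
      rw [pow_add]; ring
    rw [h5]
    exact h1
  have h3 := hs2.norm_le_of_bounded hg (fun m => (hterm _).trans (jet_norm_le hρ hu c _))
  have h4 : ‖∑ i ∈ Finset.range M, (i.factorial : ℂ)⁻¹ • (w - 0) ^ i •
      iteratedDeriv i (hh u c) 0‖ ≤ M * η := by
    refine (norm_sum_le _ _).trans ?_
    calc ∑ i ∈ Finset.range M, ‖(i.factorial : ℂ)⁻¹ • (w - 0) ^ i • iteratedDeriv i (hh u c) 0‖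
        ≤ ∑ _i ∈ Finset.range M, η :=
          Finset.sum_le_sum fun i hi => (hterm i).trans (hj i (Finset.mem_range.1 hi))
      _ = M * η := by simp
  calc ‖hh u c w‖ = ‖(∑ i ∈ Finset.range M, (i.factorial : ℂ)⁻¹ • (w - 0) ^ i •
      iteratedDeriv i (hh u c) 0) + (hh u c w - ∑ i ∈ Finset.range M, (i.factorial : ℂ)⁻¹ •
        (w - 0) ^ i • iteratedDeriv i (hh u c) 0)‖ := by congr 1; ring
    _ ≤ _ := (norm_add_le _ _).trans (add_le_add h4 h3)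

/-- If the first `M` jets at `c` are small then the polynomial is small near `c`. -/
lemma PP_small {N : ℕ} {ρ : ℝ} (hρ : 0 < ρ) {u : Fin N → ℂ} (hu : ∀ n, ‖u n‖ ≤ 1) (c : ℝ)
    (M : ℕ) {η : ℝ} (hj : ∀ m < M, ‖jet ρ u c m‖ ≤ η) {z : ℂ} (hz : ‖z - c‖ ≤ ρ) :
    ‖PP u z‖ ≤ (M * η + N * Real.exp (9 / 2 * ρ ^ 2) * (1 / 3) ^ M * (3 / 2)) *
      Real.exp (‖z‖ ^ 2 / 2) := by
  have h1 := PP_eq_hh u c (z - c)
  rw [add_sub_cancel] at h1
  exact h1.trans (mul_le_mul_of_nonneg_right (hh_small hρ hu c M hj hz) (Real.exp_pos _).le)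

end Pool.Agent.H67g
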