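import Mathlib
import Pool.Agent.H67g.G1

/-!
Lower bound for the volume of the set of coefficient vectors for which the polynomial is close to a
given one on a thin neighbourhood of a real segment.
-/

set_option autoImplicit false

open Complex Real MeasureTheory

namespace Pool.Agent.H67g

/-- The vectors `x` with entries of norm at most two such that `PP x` is close to `PP h₀` on `D`. -/
def AA {N : ℕ} (h₀ : Fin N → ℂ) (D : Set ℂ) (θ : ℝ) : Set (Fin N → ℂ) :=
  {x | (∀ n, ‖x n‖ ≤ 2) ∧ ∀ z ∈ D, ‖PP (x - h₀) z‖ ≤ θ * Real.exp (‖z‖ ^ 2 / 2)}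

lemma measurableSet_AA {N : ℕ} (h₀ : Fin N → ℂ) (D : Set ℂ) (θ : ℝ) :
    MeasurableSet (AA h₀ D θ) := by
  apply IsClosed.measurableSet
  have h1 : AA h₀ D θ = (⋂ n, {x : Fin N → ℂ | ‖x n‖ ≤ 2}) ∩
      ⋂ z ∈ D, {x : Fin N → ℂ | ‖PP (x - h₀) z‖ ≤ θ * Real.exp (‖z‖ ^ 2 / 2)} := by
    ext x; simp [AA]
  rw [h1]
  refine (isClosed_iInter fun n => ?_).inter (isClosed_iInter fun z => isClosed_iInter fun _ => ?_)
  · exact isClosed_le (by fun_prop) continuous_const
  · refine isClosed_le ?_ continuous_const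
    unfold PP
    fun_prop

lemma floor_close {a b η : ℝ} (hη : 0 < η) (h : ⌊a / η⌋ = ⌊b / η⌋) : |a - b| ≤ η := by
  have h1 := Int.abs_sub_lt_one_of_floor_eq_floor h
  rw [← sub_div, abs_div, abs_of_pos hη, div_lt_one hη] at h1
  exact h1.le

lemma floor_mem {a η S : ℝ} (hη : 0 < η) (L : ℕ) (ha : |a| ≤ S) (hL : S ≤ L * η) :
    ⌊a / η⌋ ∈ Finset.Icc (-(L : ℤ)) L := by
  rw [Finset.mem_Icc]
  have h1 := abs_le.1 (ha.trans hL)
  constructor
  · apply Int.le_floor.2
    push_cast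
    rw [le_div_iff₀ hη]
    linarith [h1.1]
  · have h2 : a / η ≤ L := by
      rw [div_le_iff₀ hη]; exact h1.2
    have h3 : ((⌊a / η⌋ : ℤ) : ℝ) ≤ ((L : ℤ) : ℝ) := (Int.floor_le _).trans (by push_cast; exact h2)
    exact_mod_cast h3

theorem volume_AA {N : ℕ} {ρ : ℝ} (hρ : 0 < ρ) (h₀ : Fin N → ℂ) (hh₀ : ∀ n, ‖h₀ n‖ ≤ 1)
    (D : Set ℂ) {J : ℕ} (c : Fin J → ℝ) (hD : ∀ z ∈ D, ∃ j, ‖z - c j‖ ≤ ρ) (M L : ℕ) {η : ℝ}
    (hη : 0 < η) (hL : N * Real.exp (9 / 2 * ρ ^ 2) ≤ L * η) :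
    ENNReal.ofReal (Real.pi / 4) ^ N ≤ (((2 * L + 1) ^ 2) ^ (J * M) : ℕ) *
      volume (AA h₀ D (M * (2 * η) + N * Real.exp (9 / 2 * ρ ^ 2) * (1 / 3) ^ M * (3 / 2))) := by
  classical
  set θ : ℝ := M * (2 * η) + N * Real.exp (9 / 2 * ρ ^ 2) * (1 / 3) ^ M * (3 / 2) with hθ
  set Q : Set (Fin N → ℂ) := Set.pi Set.univ (fun _ => Metric.closedBall 0 (1 / 2)) with hQ
  have hQvol : volume Q = ENNReal.ofReal (Real.pi / 4) ^ N := by
    rw [hQ, volume_pi_pi]
    simp only [Complex.volume_closedBall, Finset.prod_const, Finset.card_univ, Fintype.card_fin]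
    congr 1
    rw [← ENNReal.ofReal_pow (by norm_num), ← ENNReal.ofReal_coe_nnreal,
      ← ENNReal.ofReal_mul (by positivity)]
    congr 1
    rw [NNReal.coe_real_pi]; ring
  -- the index of a cell
  let idx : (Fin N → ℂ) → (Fin J × Fin M → ℤ × ℤ) := fun u p =>
    (⌊(jet ρ u (c p.1) p.2).re / η⌋, ⌊(jet ρ u (c p.1) p.2).im / η⌋)
  let K : Finset (Fin J × Fin M → ℤ × ℤ) :=
    Fintype.piFinset (fun _ => Finset.Icc (-(L : ℤ)) L ×ˢ Finset.Icc (-(L : ℤ)) L)
  have hK : K.card = ((2 * L + 1) ^ 2) ^ (J * M) := by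
    simp only [K, Fintype.card_piFinset, Finset.card_product, Int.card_Icc, Finset.prod_const,
      Finset.card_univ, Fintype.card_prod, Fintype.card_fin]
    congr 1
    have : ((L : ℤ) + 1 - -(L : ℤ)).toNat = 2 * L + 1 := by omega
    rw [this]; ring
  have hQn : ∀ u ∈ Q, ∀ n, ‖u n‖ ≤ 1 / 2 := by
    intro u hu n
    have := hu n (Set.mem_univ n)
    rwa [mem_closedBall_zero_iff] at this
  have hcov : Q ⊆ ⋃ κ ∈ K, {u ∈ Q | idx u = κ} := by
    intro u hu
    refine Set.mem_iUnion₂.2 ⟨idx u, ?_, hu, rfl⟩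
    rw [Fintype.mem_piFinset]
    intro p
    have h1 := jet_norm_le hρ (fun n => (hQn u hu n).trans (by norm_num)) (c p.1) p.2
    have h2 : ‖jet ρ u (c p.1) p.2‖ ≤ N * Real.exp (9 / 2 * ρ ^ 2) := by
      refine h1.trans (mul_le_of_le_one_right (by positivity) ?_)
      exact pow_le_one₀ (by norm_num) (by norm_num)
    rw [Finset.mem_product]
    exact ⟨floor_mem hη L ((Complex.abs_re_le_norm _).trans h2) hL,
      floor_mem hη L ((Complex.abs_im_le_norm _).trans h2) hL⟩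
  have hcell : ∀ κ ∈ K, volume {u ∈ Q | idx u = κ} ≤ volume (AA h₀ D θ) := by
    intro κ _
    rcases Set.eq_empty_or_nonempty {u ∈ Q | idx u = κ} with h0 | ⟨u0, hu0, hi0⟩
    · rw [h0, measure_empty]; exact zero_le
    · have hsub : {u ∈ Q | idx u = κ} ⊆ (fun u => u + (h₀ - u0)) ⁻¹' (AA h₀ D θ) := by
        rintro u ⟨hu, hi⟩
        have hd : ∀ n, ‖(u - u0) n‖ ≤ 1 := by
          intro n
          rw [Pi.sub_apply]
          have := norm_sub_le (u n) (u0 n)
          linarith [hQn u hu n, hQn u0 hu0 n]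
        refine ⟨fun n => ?_, fun z hz => ?_⟩
        · have e1 : (u + (h₀ - u0)) n = (u - u0) n + h₀ n := by
            simp only [Pi.add_apply, Pi.sub_apply]; ring
          change ‖(u + (h₀ - u0)) n‖ ≤ 2
          rw [e1]
          have := norm_add_le ((u - u0) n) (h₀ n)
          linarith [hd n, hh₀ n]
        · have e1 : (u + (h₀ - u0)) - h₀ = u - u0 := by abel
          change ‖PP ((u + (h₀ - u0)) - h₀) z‖ ≤ _
          rw [e1]
          obtain ⟨j, hj⟩ := hD z hz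
          refine PP_small hρ hd (c j) M (fun m hm => ?_) hj
          have hi' := congrFun (hi.trans hi0.symm) (j, ⟨m, hm⟩)
          simp only [idx, Prod.mk.injEq] at hi'
          rw [jet_sub]
          have e2 := floor_close hη hi'.1
          have e3 := floor_close hη hi'.2
          refine (Complex.norm_le_abs_re_add_abs_im _).trans ?_
          rw [Complex.sub_re, Complex.sub_im]
          linarith
      calc volume {u ∈ Q | idx u = κ} ≤ volume ((fun u => u + (h₀ - u0)) ⁻¹' (AA h₀ D θ)) :=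
            measure_mono hsub
        _ = volume (AA h₀ D θ) := measure_preimage_add_right _ _ _
  calc ENNReal.ofReal (Real.pi / 4) ^ N = volume Q := hQvol.symm
    _ ≤ volume (⋃ κ ∈ K, {u ∈ Q | idx u = κ}) := measure_mono hcov
    _ ≤ ∑ κ ∈ K, volume {u ∈ Q | idx u = κ} := measure_biUnion_finset_le _ _
    _ ≤ ∑ _κ ∈ K, volume (AA h₀ D θ) := Finset.sum_le_sum hcell
    _ = _ := by rw [Finset.sum_const, hK, nsmul_eq_mul]

end Pool.Agent.H67g
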