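import Mathlib
import Pool.Agent.H67g.G2

/-!
Probability: the standard complex Gaussian measure, its powers, and the tail event.
-/

set_option autoImplicit false

open Complex Real MeasureTheory ProbabilityTheory

namespace Pool.Agent.H67g

/-- The standard complex Gaussian measure: density `e ^ (- |w| ^ 2) / π` with respect to the
Lebesgue measure of `ℂ`. -/
noncomputable def stdComplexGaussian : Measure ℂ :=
  (volume : Measure ℂ).withDensity fun w => ENNReal.ofReal (Real.exp (-‖w‖ ^ 2) / Real.pi)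

/-- `ξ 0, ξ 1, ...` are independent standard complex Gaussian random variables on the probability
space `(Ω, P)`. -/
structure IsIIDGaussian {Ω : Type*} [MeasurableSpace Ω] (P : Measure Ω) (ξ : ℕ → Ω → ℂ) : Prop where
  prob : IsProbabilityMeasure P
  meas : ∀ n, Measurable (ξ n)
  indep : iIndepFun ξ P
  law : ∀ n, P.map (ξ n) = stdComplexGaussian

/-- The lower bound of the density on the disk of radius two. -/
noncomputable def c0 : ENNReal := ENNReal.ofReal (Real.exp (-4) / Real.pi)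

lemma gauss_ge : c0 • (volume : Measure ℂ).restrict (Metric.closedBall 0 2) ≤ stdComplexGaussian := by
  rw [Measure.le_iff]
  intro s hs
  rw [Measure.smul_apply, Measure.restrict_apply hs, stdComplexGaussian, withDensity_apply _ hs,
    smul_eq_mul]
  calc c0 * volume (s ∩ Metric.closedBall 0 2)
      = ∫⁻ _w in s ∩ Metric.closedBall 0 2, c0 := by rw [setLIntegral_const]
    _ ≤ ∫⁻ w in s ∩ Metric.closedBall 0 2, ENNReal.ofReal (Real.exp (-‖w‖ ^ 2) / Real.pi) := by
        refine setLIntegral_mono' (hs.inter measurableSet_closedBall) fun w hw => ?_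
        unfold c0
        apply ENNReal.ofReal_le_ofReal
        have h1 : ‖w‖ ≤ 2 := by simpa using hw.2
        gcongr
        nlinarith [norm_nonneg w]
    _ ≤ _ := lintegral_mono_set Set.inter_subset_left

lemma pi_ge {N : ℕ} [SigmaFinite stdComplexGaussian] (E : Set (Fin N → ℂ)) (hE : MeasurableSet E)
    (hE2 : ∀ x ∈ E, ∀ n, ‖x n‖ ≤ 2) :
    c0 ^ N * volume E ≤ Measure.pi (fun _ : Fin N => stdComplexGaussian) E := by
  set B : Set (Fin N → ℂ) := Set.pi Set.univ (fun _ => Metric.closedBall 0 2) with hB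
  have hBm : MeasurableSet B := MeasurableSet.univ_pi fun _ => measurableSet_closedBall
  set μ' : Measure (Fin N → ℂ) := c0 ^ N • (volume : Measure (Fin N → ℂ)).restrict B with hμ'
  have h1 : μ'.toOuterMeasure ≤ OuterMeasure.pi
      (fun _ : Fin N => (stdComplexGaussian).toOuterMeasure) := by
    rw [OuterMeasure.le_pi]
    intro s _
    change μ' (Set.pi Set.univ s) ≤ ∏ i, stdComplexGaussian (s i)
    rw [hμ', Measure.smul_apply, Measure.restrict_apply' hBm, hB, ← Set.pi_inter_distrib,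
      volume_pi_pi, smul_eq_mul]
    calc c0 ^ N * ∏ i, volume (s i ∩ Metric.closedBall 0 2)
        = ∏ i, (c0 * volume (s i ∩ Metric.closedBall 0 2)) := by
          rw [Finset.prod_mul_distrib]; simp
      _ ≤ ∏ i, stdComplexGaussian (s i) := by
          refine Finset.prod_le_prod' fun i _ => ?_
          have h2 := Measure.le_iff'.1 gauss_ge (s i)
          rwa [Measure.smul_apply, Measure.restrict_apply' measurableSet_closedBall,
            smul_eq_mul] at h2
  have h3 := h1 E
  have h4 : Measure.pi (fun _ : Fin N => stdComplexGaussian) E =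
      OuterMeasure.pi (fun _ : Fin N => (stdComplexGaussian).toOuterMeasure) E := by
    rw [Measure.pi, toMeasure_apply _ _ hE]
  rw [h4]
  refine le_trans (le_of_eq ?_) h3
  change c0 ^ N * volume E = μ' E
  rw [hμ', Measure.smul_apply, Measure.restrict_apply' hBm, smul_eq_mul]
  congr 2
  rw [Set.inter_eq_left.2]
  intro x hx n _
  simpa using hE2 x hx n

lemma integral_gauss {b : ℝ} (hb : 0 < b) :
    ∫ w : ℂ, Real.exp (-b * ‖w‖ ^ 2) = Real.pi / b := by
  rw [GaussianFourier.integral_rexp_neg_mul_sq_norm hb]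
  simp

lemma lintegral_gauss {b : ℝ} (hb : 0 < b) :
    ∫⁻ w : ℂ, ENNReal.ofReal (Real.exp (-b * ‖w‖ ^ 2)) = ENNReal.ofReal (Real.pi / b) := by
  rw [← integral_gauss hb, ofReal_integral_eq_lintegral_ofReal]
  · have h1 := integral_gauss hb
    by_contra hcon
    rw [integral_undef hcon] at h1
    have : 0 < Real.pi / b := by positivity
    linarith
  · exact Filter.Eventually.of_forall fun w => (Real.exp_pos _).le

lemma gauss_univ : stdComplexGaussian Set.univ = 1 := by
  rw [stdComplexGaussian, withDensity_apply _ MeasurableSet.univ, Measure.restrict_univ]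
  have h1 : ∀ w : ℂ, ENNReal.ofReal (Real.exp (-‖w‖ ^ 2) / Real.pi) =
      ENNReal.ofReal (1 / Real.pi) * ENNReal.ofReal (Real.exp (-1 * ‖w‖ ^ 2)) := by
    intro w
    rw [← ENNReal.ofReal_mul (by positivity)]
    congr 1
    rw [neg_one_mul]; ring
  simp only [h1]
  rw [lintegral_const_mul _ (by fun_prop), lintegral_gauss one_pos,
    ← ENNReal.ofReal_mul (by positivity)]
  rw [div_one, one_div, inv_mul_cancel₀ Real.pi_ne_zero, ENNReal.ofReal_one]

instance : IsProbabilityMeasure stdComplexGaussian := ⟨gauss_univ⟩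

lemma gauss_tail (t : ℝ) : stdComplexGaussian {w : ℂ | t < ‖w‖ ^ 2} ≤
    ENNReal.ofReal (2 * Real.exp (-t / 2)) := by
  have hm : MeasurableSet {w : ℂ | t < ‖w‖ ^ 2} := measurableSet_lt measurable_const (by fun_prop)
  rw [stdComplexGaussian, withDensity_apply _ hm]
  calc ∫⁻ w in {w : ℂ | t < ‖w‖ ^ 2}, ENNReal.ofReal (Real.exp (-‖w‖ ^ 2) / Real.pi)
      ≤ ∫⁻ w in {w : ℂ | t < ‖w‖ ^ 2}, ENNReal.ofReal (Real.exp (-t / 2) / Real.pi) *
          ENNReal.ofReal (Real.exp (-(1 / 2) * ‖w‖ ^ 2)) := by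
        refine setLIntegral_mono' hm fun w hw => ?_
        rw [← ENNReal.ofReal_mul (by positivity)]
        apply ENNReal.ofReal_le_ofReal
        rw [div_mul_eq_mul_div, ← Real.exp_add]
        have : t < ‖w‖ ^ 2 := hw
        gcongr
        linarith
    _ ≤ ∫⁻ w : ℂ, ENNReal.ofReal (Real.exp (-t / 2) / Real.pi) *
          ENNReal.ofReal (Real.exp (-(1 / 2) * ‖w‖ ^ 2)) := setLIntegral_le_lintegral _ _
    _ = ENNReal.ofReal (2 * Real.exp (-t / 2)) := by
        rw [lintegral_const_mul _ (by fun_prop), lintegral_gauss (by norm_num),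
          ← ENNReal.ofReal_mul (by positivity)]
        congr 1
        field_simp
        try ring

/-- The tail event. -/
def tailEv {Ω : Type*} (ξ : ℕ → Ω → ℂ) (N : ℕ) : Set Ω :=
  {ω | ∀ n, N ≤ n → ‖ξ n ω‖ ^ 2 ≤ Real.exp n}

lemma exp_bound {n : ℕ} (hn : 5 ≤ n) : 2 * Real.exp (-(Real.exp n) / 2) ≤ (1 / 2) ^ (n + 2) := by
  have h5 : (5 : ℝ) ≤ n := by exact_mod_cast hn
  have h1 : 1 + (n : ℝ) + (n : ℝ) ^ 2 / 2 ≤ Real.exp n := Real.quadratic_le_exp_of_nonneg (by linarith)
  have h2 : (n : ℝ) + 3 ≤ Real.exp n / 2 := by nlinarith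
  have h3 : Real.exp (-(Real.exp n) / 2) ≤ Real.exp (-((n + 3 : ℕ) : ℝ)) := by
    apply Real.exp_le_exp.2
    push_cast
    linarith
  have h4 : Real.exp (-((n + 3 : ℕ) : ℝ)) ≤ (1 / 2) ^ (n + 3) := by
    rw [Real.exp_neg, one_div, inv_pow]
    apply inv_anti₀ (by positivity)
    have : (2 : ℝ) ≤ Real.exp 1 := by
      have := Real.add_one_le_exp (1 : ℝ); linarith
    calc (2 : ℝ) ^ (n + 3) ≤ (Real.exp 1) ^ (n + 3) := pow_le_pow_left₀ (by norm_num) this _
      _ = Real.exp ((n + 3 : ℕ) : ℝ) := by rw [← Real.exp_nat_mul, mul_one]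
  calc 2 * Real.exp (-(Real.exp n) / 2) ≤ 2 * (1 / 2) ^ (n + 3) := by
        linarith [h3.trans h4]
    _ = (1 / 2) ^ (n + 2) := by ring

variable {Ω : Type*} [MeasurableSpace Ω] {P : Measure Ω} {ξ : ℕ → Ω → ℂ}

lemma measurable_tailEv (h : IsIIDGaussian P ξ) (N : ℕ) : MeasurableSet (tailEv ξ N) := by
  have : tailEv ξ N = ⋂ n, ⋂ (_ : N ≤ n), {ω | ‖ξ n ω‖ ^ 2 ≤ Real.exp n} := by
    ext ω; simp [tailEv]
  rw [this]
  refine MeasurableSet.iInter fun n => MeasurableSet.iInter fun _ => ?_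
  exact measurableSet_le ((h.meas n).norm.pow_const 2) measurable_const

lemma prob_tailEv (h : IsIIDGaussian P ξ) {N : ℕ} (hN : 5 ≤ N) :
    1 / 2 ≤ P (tailEv ξ N) := by
  have := h.prob
  have h1 : P (tailEv ξ N)ᶜ ≤ 1 / 2 := by
    have h2 : (tailEv ξ N)ᶜ ⊆ ⋃ m : ℕ, {ω | Real.exp ((m + N : ℕ) : ℝ) < ‖ξ (m + N) ω‖ ^ 2} := by
      intro ω hω
      simp only [tailEv, Set.mem_compl_iff, Set.mem_ofPred_eq, not_forall, not_le] at hω
      obtain ⟨n, hn, hlt⟩ := hω
      refine Set.mem_iUnion.2 ⟨n - N, ?_⟩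
      rw [Nat.sub_add_cancel hn]
      exact hlt
    refine (measure_mono h2).trans ((measure_iUnion_le _).trans ?_)
    calc ∑' m : ℕ, P {ω | Real.exp ((m + N : ℕ) : ℝ) < ‖ξ (m + N) ω‖ ^ 2}
        ≤ ∑' m : ℕ, ENNReal.ofReal ((1 / 2) ^ (m + 2)) := by
          refine ENNReal.tsum_le_tsum fun m => ?_
          have h3 : P {ω | Real.exp ((m + N : ℕ) : ℝ) < ‖ξ (m + N) ω‖ ^ 2} =
              stdComplexGaussian {w : ℂ | Real.exp ((m + N : ℕ) : ℝ) < ‖w‖ ^ 2} := by
            rw [← h.law (m + N), Measure.map_apply (h.meas _)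
              (measurableSet_lt measurable_const (by fun_prop))]
            rfl
          rw [h3]
          refine (gauss_tail _).trans (ENNReal.ofReal_le_ofReal ?_)
          refine (exp_bound (by omega)).trans ?_
          exact pow_le_pow_of_le_one (by norm_num) (by norm_num) (by omega)
      _ = 1 / 2 := by
          have hsum : Summable (fun m : ℕ => (1 / 2 : ℝ) ^ (m + 2)) :=
            (summable_nat_add_iff 2).2 (summable_geometric_of_lt_one (by norm_num) (by norm_num))
          rw [← ENNReal.ofReal_tsum_of_nonneg (fun m => by positivity) hsum]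
          have : ∑' m : ℕ, (1 / 2 : ℝ) ^ (m + 2) = 1 / 2 := by
            simp only [pow_add]
            rw [tsum_mul_right, tsum_geometric_of_lt_one (by norm_num) (by norm_num)]
            norm_num
          rw [this, ENNReal.ofReal_div_of_pos (by norm_num)]
          simp
  have h5 := prob_compl_eq_one_sub (μ := P) (measurable_tailEv h N)
  rw [h5] at h1
  have h6 : (1 / 2 : ENNReal) + 1 / 2 ≤ 1 / 2 + P (tailEv ξ N) := by
    rw [ENNReal.add_halves]
    rwa [tsub_le_iff_right] at h1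
  have h7 : (1 / 2 : ENNReal) ≠ ⊤ := by simp
  exact (ENNReal.add_le_add_iff_left h7).1 h6

lemma indep_event (h : IsIIDGaussian P ξ) (N : ℕ) {A : Set (Fin N → ℂ)} (hA : MeasurableSet A) :
    P ({ω | (fun i : Fin N => ξ i ω) ∈ A} ∩ tailEv ξ N) =
      P {ω | (fun i : Fin N => ξ i ω) ∈ A} * P (tailEv ξ N) := by
  have := h.prob
  have hind : Indep (⨆ i ∈ {n : ℕ | n < N}, (inferInstance : MeasurableSpace ℂ).comap (ξ i))
      (⨆ i ∈ {n : ℕ | N ≤ n}, (inferInstance : MeasurableSpace ℂ).comap (ξ i)) P := by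
    apply indep_iSup_of_disjoint (fun i => (h.meas i).comap_le) h.indep
    rw [Set.disjoint_left]
    intro n hn hn'
    have e1 : n < N := hn
    have e2 : N ≤ n := hn'
    omega
  rw [Indep_iff] at hind
  apply hind
  · have h1 : @Measurable Ω (Fin N → ℂ)
        (⨆ i ∈ {n : ℕ | n < N}, (inferInstance : MeasurableSpace ℂ).comap (ξ i)) _
        (fun ω (i : Fin N) => ξ i ω) := by
      refine @measurable_pi_lambda _ _ _ (_) _ _ fun i => ?_
      refine Measurable.mono (comap_measurable (ξ i)) ?_ le_rfl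
      exact le_iSup₂_of_le (i : ℕ) i.2 le_rfl
    exact h1 hA
  · have : tailEv ξ N = ⋂ n, ⋂ (_ : N ≤ n), {ω | ‖ξ n ω‖ ^ 2 ≤ Real.exp n} := by
      ext ω; simp [tailEv]
    rw [this]
    refine MeasurableSet.iInter fun n => MeasurableSet.iInter fun hn => ?_
    have h2 : MeasurableSet[(inferInstance : MeasurableSpace ℂ).comap (ξ n)]
        {ω | ‖ξ n ω‖ ^ 2 ≤ Real.exp n} :=
      ⟨{w | ‖w‖ ^ 2 ≤ Real.exp n}, measurableSet_le (by fun_prop) measurable_const, rfl⟩
    have h3 : (inferInstance : MeasurableSpace ℂ).comap (ξ n) ≤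
        ⨆ i ∈ {n : ℕ | N ≤ n}, (inferInstance : MeasurableSpace ℂ).comap (ξ i) :=
      le_iSup₂_of_le n hn le_rfl
    exact h3 _ h2

lemma law_fin (h : IsIIDGaussian P ξ) (N : ℕ) {A : Set (Fin N → ℂ)} (hA : MeasurableSet A) :
    P {ω | (fun i : Fin N => ξ i ω) ∈ A} = Measure.pi (fun _ : Fin N => stdComplexGaussian) A := by
  have := h.prob
  have h1 : iIndepFun (fun i : Fin N => ξ (i : ℕ)) P := h.indep.precomp Fin.val_injective
  have h2 := (iIndepFun_iff_map_fun_eq_pi_map (fun i : Fin N => (h.meas i).aemeasurable)).1 h1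
  have h3 : Measurable (fun ω (i : Fin N) => ξ (i : ℕ) ω) :=
    measurable_pi_lambda _ fun i => h.meas i
  have h4 : Measure.pi (fun _ : Fin N => stdComplexGaussian) =
      P.map (fun ω (i : Fin N) => ξ (i : ℕ) ω) := by
    rw [h2]
    congr 1
    funext i
    exact (h.law i).symm
  rw [h4, Measure.map_apply h3 hA]
  rfl

/-- The combination: a lower bound for the probability that the first `N` coefficients are in `A`
and the others are moderate. -/
theorem prob_ge (h : IsIIDGaussian P ξ) {N : ℕ} (hN : 5 ≤ N) {A : Set (Fin N → ℂ)}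
    (hA : MeasurableSet A) (hA2 : ∀ x ∈ A, ∀ n, ‖x n‖ ≤ 2) :
    c0 ^ N * volume A * (1 / 2) ≤ P ({ω | (fun i : Fin N => ξ i ω) ∈ A} ∩ tailEv ξ N) := by
  rw [indep_event h N hA, law_fin h N hA]
  exact mul_le_mul' (pi_ge A hA hA2) (prob_tailEv h hN)

end Pool.Agent.H67g
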