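import Mathlib
import Pool.Agent.H67g.G3

/-!
The Gaussian entire function close to `exp (a z ^ 2 / 2)`.
-/

set_option autoImplicit false

open Complex Real MeasureTheory ProbabilityTheory

namespace Pool.Agent.H67g

/-- The Gaussian entire function `f(z) = ∑ ξ_n z ^ n / √(n!)`. -/
noncomputable def gef {Ω : Type*} (ξ : ℕ → Ω → ℂ) (ω : Ω) (z : ℂ) : ℂ :=
  ∑' n : ℕ, ξ n ω * (z ^ n / (Real.sqrt (n.factorial) : ℂ))

lemma tail_term {R : ℝ} {N n : ℕ} (hN : Real.exp 3 * R ^ 2 ≤ N) (hR : 0 ≤ R)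
    (hn : N ≤ n) (hn0 : 0 < n) : R ^ n / Real.sqrt (n.factorial) ≤ Real.exp (-(n : ℝ)) := by
  have hf : (0 : ℝ) < n.factorial := by exact_mod_cast Nat.factorial_pos n
  have hnR : (0 : ℝ) < n := by exact_mod_cast hn0
  have h1 := Real.pow_div_factorial_le_exp (n : ℝ) hnR.le n
  have h2 : (R ^ n / Real.sqrt (n.factorial)) ^ 2 ≤ (Real.exp (-(n : ℝ))) ^ 2 := by
    rw [div_pow, Real.sq_sqrt hf.le, ← pow_mul, mul_comm n 2, pow_mul]
    have h3 : R ^ 2 ≤ Real.exp (-3) * n := by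
      have h4 : Real.exp 3 * R ^ 2 ≤ n := hN.trans (by exact_mod_cast hn)
      calc R ^ 2 = Real.exp (-3) * (Real.exp 3 * R ^ 2) := by
            rw [← mul_assoc, ← Real.exp_add]; norm_num
        _ ≤ _ := mul_le_mul_of_nonneg_left h4 (Real.exp_pos _).le
    calc (R ^ 2) ^ n / (n.factorial : ℝ) ≤ (Real.exp (-3) * n) ^ n / (n.factorial : ℝ) := by
          gcongr
      _ = Real.exp (-3) ^ n * ((n : ℝ) ^ n / n.factorial) := by rw [mul_pow]; ring
      _ ≤ Real.exp (-3) ^ n * Real.exp n := mul_le_mul_of_nonneg_left h1 (by positivity)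
      _ = (Real.exp (-(n : ℝ))) ^ 2 := by
          rw [← Real.exp_nat_mul, ← Real.exp_add, ← Real.exp_nat_mul]
          congr 1; push_cast; ring
  exact le_of_sq_le_sq h2 (Real.exp_pos _).le

/-- Splitting off the tail. -/
lemma tail_sum {x : ℕ → ℂ} {N : ℕ} (hx : ∀ n, N ≤ n → ‖x n‖ ^ 2 ≤ Real.exp n) {z : ℂ}
    (hN : Real.exp 3 * ‖z‖ ^ 2 ≤ N) (hN0 : 0 < N) :
    Summable (fun n : ℕ => x n * (z ^ n / (Real.sqrt (n.factorial) : ℂ))) ∧
    ‖∑' n : ℕ, x n * (z ^ n / (Real.sqrt (n.factorial) : ℂ)) - PP (fun i : Fin N => x i) z‖ ≤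
      3 * Real.exp (-(N : ℝ) / 2) := by
  have hterm : ∀ n, N ≤ n → ‖x n * (z ^ n / (Real.sqrt (n.factorial) : ℂ))‖ ≤
      Real.exp (-(n : ℝ) / 2) := by
    intro n hn
    rw [norm_mul, norm_div, norm_pow, Complex.norm_real, Real.norm_of_nonneg (Real.sqrt_nonneg _)]
    have h1 := tail_term hN (norm_nonneg z) hn (by omega)
    have h2 : ‖x n‖ ≤ Real.exp (n / 2) := by
      apply le_of_sq_le_sq _ (Real.exp_pos _).le
      rw [← Real.exp_nat_mul]
      refine (hx n hn).trans (le_of_eq ?_)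
      congr 1; push_cast; ring
    calc ‖x n‖ * (‖z‖ ^ n / Real.sqrt (n.factorial))
        ≤ Real.exp (n / 2) * Real.exp (-(n : ℝ)) :=
          mul_le_mul h2 h1 (by positivity) (Real.exp_pos _).le
      _ = Real.exp (-(n : ℝ) / 2) := by rw [← Real.exp_add]; congr 1; ring
  have hr0 : 0 ≤ Real.exp (-1 / 2) := (Real.exp_pos _).le
  have hr1 : Real.exp (-1 / 2) ≤ 2 / 3 := by
    have h1 : (3 / 2 : ℝ) ≤ Real.exp (1 / 2) := by
      have := Real.add_one_le_exp (1 / 2 : ℝ); linarith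
    have h2 : Real.exp (-1 / 2) = (Real.exp (1 / 2))⁻¹ := by
      rw [← Real.exp_neg]; congr 1; norm_num
    rw [h2]
    calc (Real.exp (1 / 2))⁻¹ ≤ (3 / 2 : ℝ)⁻¹ := inv_anti₀ (by norm_num) h1
      _ = 2 / 3 := by norm_num
  have hgeo : HasSum (fun m : ℕ => Real.exp (-((m + N : ℕ) : ℝ) / 2))
      (Real.exp (-(N : ℝ) / 2) * (1 - Real.exp (-1 / 2))⁻¹) := by
    have h1 := (hasSum_geometric_of_lt_one hr0 (lt_of_le_of_lt hr1 (by norm_num))).mul_left
      (Real.exp (-(N : ℝ) / 2))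
    have h2 : (fun m : ℕ => Real.exp (-((m + N : ℕ) : ℝ) / 2)) =
        fun m => Real.exp (-(N : ℝ) / 2) * Real.exp (-1 / 2) ^ m := by
      funext m
      rw [← Real.exp_nat_mul, ← Real.exp_add]
      congr 1; push_cast; ring
    rw [h2]; exact h1
  have hsum : Summable (fun n : ℕ => x n * (z ^ n / (Real.sqrt (n.factorial) : ℂ))) := by
    rw [← summable_nat_add_iff N]
    exact Summable.of_norm_bounded hgeo.summable (fun m => hterm (m + N) (by omega))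
  refine ⟨hsum, ?_⟩
  have h3 := (hasSum_nat_add_iff' N).2 hsum.hasSum
  have h4 := h3.norm_le_of_bounded hgeo (fun m => hterm (m + N) (by omega))
  have h5 : PP (fun i : Fin N => x i) z =
      ∑ n ∈ Finset.range N, x n * (z ^ n / (Real.sqrt (n.factorial) : ℂ)) := by
    unfold PP
    exact Fin.sum_univ_eq_sum_range (fun n => x n * (z ^ n / (Real.sqrt (n.factorial) : ℂ))) N
  rw [h5]
  refine h4.trans ?_
  rw [mul_comm]
  apply mul_le_mul_of_nonneg_right _ (Real.exp_pos _).le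
  have h6 : (1 / 3 : ℝ) ≤ 1 - Real.exp (-1 / 2) := by linarith
  calc (1 - Real.exp (-1 / 2))⁻¹ ≤ (1 / 3 : ℝ)⁻¹ := inv_anti₀ (by norm_num) h6
    _ = 3 := by norm_num

/-- The coefficients of `exp (a z ^ 2 / 2)`. -/
noncomputable def hc (a : ℝ) (n : ℕ) : ℂ :=
  if Even n then ((Real.sqrt (n.factorial) * (a / 2) ^ (n / 2) / ((n / 2).factorial : ℝ) : ℝ) : ℂ)
  else 0

lemma hc_norm_le {a : ℝ} (ha0 : 0 ≤ a) (ha1 : a ≤ 1) (n : ℕ) : ‖hc a n‖ ≤ 1 := by
  unfold hc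
  split_ifs with h
  · obtain ⟨k, rfl⟩ := h
    have hk : (k + k) / 2 = k := by omega
    rw [hk, Complex.norm_real, Real.norm_of_nonneg (by positivity)]
    have hf : (0 : ℝ) < k.factorial := by exact_mod_cast Nat.factorial_pos k
    have h2 : (Real.sqrt ((k + k).factorial) * (a / 2) ^ k / (k.factorial : ℝ)) ^ 2 ≤ 1 ^ 2 := by
      rw [div_pow, mul_pow, Real.sq_sqrt (by positivity), one_pow, div_le_one (by positivity)]
      have h3 : ((k + k).factorial : ℝ) = (k + k).choose k * (k.factorial * k.factorial) := by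
        have := Nat.choose_mul_factorial_mul_factorial (Nat.le_add_left k k)
        rw [Nat.add_sub_cancel] at this
        rw [← this]; push_cast; ring
      have h4 : (((k + k).choose k : ℕ) : ℝ) ≤ 2 ^ (k + k) := by
        exact_mod_cast Nat.choose_le_two_pow (k + k) k
      have h5 : ((a / 2) ^ k) ^ 2 ≤ (1 / 2) ^ (k + k) := by
        rw [← pow_mul, mul_two]
        exact pow_le_pow_left₀ (by positivity) (by linarith) _
      rw [h3]
      calc (((k + k).choose k : ℕ) : ℝ) * (k.factorial * k.factorial) * ((a / 2) ^ k) ^ 2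
          ≤ 2 ^ (k + k) * (k.factorial * k.factorial) * (1 / 2) ^ (k + k) := by gcongr
        _ = (k.factorial : ℝ) ^ 2 := by
          have : (2 : ℝ) ^ (k + k) * (1 / 2) ^ (k + k) = 1 := by
            rw [← mul_pow]; norm_num
          calc _ = (2 : ℝ) ^ (k + k) * (1 / 2) ^ (k + k) * (k.factorial * k.factorial) := by ring
            _ = _ := by rw [this]; ring
    exact le_of_sq_le_sq h2 zero_le_one
  · simp

lemma hc_hasSum (a : ℝ) (z : ℂ) :
    HasSum (fun n : ℕ => hc a n * (z ^ n / (Real.sqrt (n.factorial) : ℂ)))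
      (Complex.exp (a * z ^ 2 / 2)) := by
  have h1 : HasSum (fun k : ℕ => (a * z ^ 2 / 2) ^ k / (k.factorial : ℂ))
      (Complex.exp (a * z ^ 2 / 2)) := by
    have := NormedSpace.expSeries_div_hasSum_exp (𝔸 := ℂ) (a * z ^ 2 / 2)
    rwa [← Complex.exp_eq_exp_ℂ] at this
  have hinj : Function.Injective (fun k : ℕ => k + k) := fun x y h => by
    simp only at h; omega
  rw [← hinj.hasSum_iff]
  · convert h1 using 1
    funext k
    have hk : (k + k) / 2 = k := by omega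
    have he : Even (k + k) := ⟨k, rfl⟩
    rw [Function.comp_apply]
    unfold hc
    rw [if_pos he, hk]
    have hs : ((Real.sqrt ((k + k).factorial) : ℝ) : ℂ) ≠ 0 := by
      rw [Ne, Complex.ofReal_eq_zero]
      exact (Real.sqrt_pos.2 (by exact_mod_cast Nat.factorial_pos _)).ne'
    have hf : (k.factorial : ℂ) ≠ 0 := by exact_mod_cast (Nat.factorial_pos k).ne'
    push_cast
    field_simp
    rw [← two_mul, pow_mul]
    ring
  · intro n hn
    have : ¬ Even n := by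
      rintro ⟨k, rfl⟩
      exact hn ⟨k, rfl⟩
    simp [hc, this]

/-- The set `r K`, `K = [-2, 2] × [-ε, ε]`. -/
def box (ε r : ℝ) : Set ℂ := {z | |z.re| ≤ 2 * r ∧ |z.im| ≤ ε * r}

lemma box_norm {ε r : ℝ} (hr : 0 ≤ r) (hε0 : 0 ≤ ε) (hε : ε ≤ 1) {z : ℂ} (hz : z ∈ box ε r) :
    ‖z‖ ^ 2 ≤ 5 * r ^ 2 := by
  obtain ⟨h1, h2⟩ := hz
  rw [Complex.sq_norm, Complex.normSq_apply]
  have h3 : z.re * z.re ≤ (2 * r) ^ 2 := by
    rw [← abs_mul_abs_self, ← sq]; exact pow_le_pow_left₀ (abs_nonneg _) h1 2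
  have h4 : z.im * z.im ≤ (1 * r) ^ 2 := by
    rw [← abs_mul_abs_self, ← sq]
    exact pow_le_pow_left₀ (abs_nonneg _) (h2.trans (by gcongr)) 2
  nlinarith

lemma exp_three : Real.exp 3 * 5 ≤ 101 := by
  have h1 := Real.exp_one_lt_d9
  have h2 : Real.exp 3 = Real.exp 1 ^ 3 := by rw [← Real.exp_nat_mul]; norm_num
  rw [h2]
  have h3 : Real.exp 1 ^ 3 ≤ 2.7182818286 ^ 3 := pow_le_pow_left₀ (Real.exp_pos _).le h1.le 3
  norm_num at h3 ⊢
  linarith

/-- On the good event there is no zero in `box ε r`. -/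
theorem no_zero {Ω : Type*} {ξ : ℕ → Ω → ℂ} {ω : Ω} {ε r : ℝ} (hr : 1 ≤ r) (hε0 : 0 < ε)
    (hε : ε ≤ 1) {N : ℕ} (hN : 101 * r ^ 2 ≤ N) {θ : ℝ}
    (hθ : θ ≤ 1 / 2 * Real.exp (-(3 * ε ^ 2 * r ^ 2)))
    (hA : (fun i : Fin N => ξ i ω) ∈ AA (fun i : Fin N => hc (1 - ε ^ 2) i) (box ε r) θ)
    (hT : ω ∈ tailEv ξ N) : ∀ z ∈ box ε r, gef ξ ω z ≠ 0 := by
  intro z hz
  have hr0 : 0 ≤ r := by linarith
  have ha0 : 0 ≤ 1 - ε ^ 2 := by nlinarith
  have ha1 : 1 - ε ^ 2 ≤ 1 := by nlinarith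
  have hz2 := box_norm hr0 hε0.le hε hz
  have hN0 : 0 < N := by
    have : (0 : ℝ) < N := lt_of_lt_of_le (by positivity) hN
    exact_mod_cast this
  have hNz : Real.exp 3 * ‖z‖ ^ 2 ≤ N := by
    refine le_trans ?_ hN
    have h1 := exp_three
    calc Real.exp 3 * ‖z‖ ^ 2 ≤ Real.exp 3 * (5 * r ^ 2) :=
          mul_le_mul_of_nonneg_left hz2 (Real.exp_pos _).le
      _ = (Real.exp 3 * 5) * r ^ 2 := by ring
      _ ≤ 101 * r ^ 2 := mul_le_mul_of_nonneg_right h1 (sq_nonneg r)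
  obtain ⟨-, h1⟩ := tail_sum (x := fun n => ξ n ω) (fun n hn => hT n hn) hNz hN0
  obtain ⟨-, h2⟩ := tail_sum (x := fun n => hc (1 - ε ^ 2) n) (fun n _ => by
    have h3 := hc_norm_le ha0 ha1 n
    calc ‖hc (1 - ε ^ 2) n‖ ^ 2 ≤ 1 := pow_le_one₀ (norm_nonneg _) h3
      _ ≤ Real.exp n := Real.one_le_exp (Nat.cast_nonneg n)) hNz hN0
  rw [(hc_hasSum (1 - ε ^ 2) z).tsum_eq] at h2
  have h3 := hA.2 z hz
  have hPP : PP ((fun i : Fin N => ξ i ω) - fun i : Fin N => hc (1 - ε ^ 2) i) z =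
      PP (fun i : Fin N => ξ i ω) z - PP (fun i : Fin N => hc (1 - ε ^ 2) i) z := by
    simp only [PP, Pi.sub_apply, sub_mul, Finset.sum_sub_distrib]
  rw [hPP] at h3
  -- the size of the target function
  set F : ℂ := Complex.exp (((1 - ε ^ 2 : ℝ) : ℂ) * z ^ 2 / 2) with hF
  obtain ⟨hx, hy⟩ := hz
  have hx2 : z.re ^ 2 ≤ 4 * r ^ 2 := by
    have := pow_le_pow_left₀ (abs_nonneg _) hx 2
    rw [sq_abs] at this; nlinarith
  have hy2 : z.im ^ 2 ≤ ε ^ 2 * r ^ 2 := by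
    have := pow_le_pow_left₀ (abs_nonneg _) hy 2
    rw [sq_abs] at this; nlinarith
  have hFn : ‖F‖ = Real.exp ((1 - ε ^ 2) * (z.re ^ 2 - z.im ^ 2) / 2) := by
    rw [hF, Complex.norm_exp]
    congr 1
    have h5 : ((1 - ε ^ 2 : ℝ) : ℂ) * z ^ 2 / 2 = (((1 - ε ^ 2) / 2 : ℝ) : ℂ) * z ^ 2 := by
      push_cast; ring
    rw [h5, Complex.re_ofReal_mul, sq z, Complex.mul_re]
    ring
  have hzn : ‖z‖ ^ 2 = z.re ^ 2 + z.im ^ 2 := by
    rw [Complex.sq_norm, Complex.normSq_apply]; ring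
  have hA1 : θ * Real.exp (‖z‖ ^ 2 / 2) ≤ 1 / 2 * ‖F‖ := by
    calc θ * Real.exp (‖z‖ ^ 2 / 2)
        ≤ (1 / 2 * Real.exp (-(3 * ε ^ 2 * r ^ 2))) * Real.exp (‖z‖ ^ 2 / 2) :=
          mul_le_mul_of_nonneg_right hθ (Real.exp_pos _).le
      _ = 1 / 2 * Real.exp (-(3 * ε ^ 2 * r ^ 2) + ‖z‖ ^ 2 / 2) := by
          rw [mul_assoc, ← Real.exp_add]
      _ ≤ 1 / 2 * ‖F‖ := by
          rw [hFn]
          apply mul_le_mul_of_nonneg_left _ (by norm_num)
          apply Real.exp_le_exp.2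
          rw [hzn]
          nlinarith [mul_le_mul_of_nonneg_left hx2 (sq_nonneg ε), sq_nonneg z.im]
  have hA2 : 6 * Real.exp (-(N : ℝ) / 2) < 1 / 2 * ‖F‖ := by
    have h6 : Real.exp (-(r ^ 2) / 2) ≤ ‖F‖ := by
      rw [hFn]
      apply Real.exp_le_exp.2
      have h7 : z.im ^ 2 ≤ r ^ 2 := by
        refine hy2.trans ?_
        calc ε ^ 2 * r ^ 2 ≤ 1 * r ^ 2 :=
              mul_le_mul_of_nonneg_right (by nlinarith) (sq_nonneg r)
          _ = r ^ 2 := one_mul _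
      have h8 : 0 ≤ (1 - ε ^ 2) * z.re ^ 2 := mul_nonneg ha0 (sq_nonneg _)
      have h9 : (1 - ε ^ 2) * z.im ^ 2 ≤ 1 * z.im ^ 2 :=
        mul_le_mul_of_nonneg_right ha1 (sq_nonneg _)
      nlinarith
    have h10 : 12 * Real.exp (-(N : ℝ) / 2) < Real.exp (-(r ^ 2) / 2) := by
      have h11 : (12 : ℝ) < Real.exp 50 := by
        have := Real.add_one_le_exp (50 : ℝ); linarith
      have h12 : -(N : ℝ) / 2 ≤ -50 + -(r ^ 2) / 2 := by nlinarith
      calc 12 * Real.exp (-(N : ℝ) / 2) ≤ 12 * Real.exp (-50 + -(r ^ 2) / 2) := by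
            gcongr
        _ = (12 * Real.exp (-50)) * Real.exp (-(r ^ 2) / 2) := by rw [Real.exp_add]; ring
        _ < 1 * Real.exp (-(r ^ 2) / 2) := by
            apply mul_lt_mul_of_pos_right _ (Real.exp_pos _)
            rw [Real.exp_neg, ← div_eq_mul_inv, div_lt_one (Real.exp_pos _)]
            exact h11
        _ = _ := one_mul _
    linarith
  intro h0
  have h13 : gef ξ ω z = ∑' n : ℕ, ξ n ω * (z ^ n / (Real.sqrt (n.factorial) : ℂ)) := rfl
  rw [← h13, h0] at h1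
  have h14 : ‖F‖ ≤ 3 * Real.exp (-(N : ℝ) / 2) + θ * Real.exp (‖z‖ ^ 2 / 2) +
      3 * Real.exp (-(N : ℝ) / 2) := by
    calc ‖F‖ = ‖(F - PP (fun i : Fin N => hc (1 - ε ^ 2) i) z) -
          (PP (fun i : Fin N => ξ i ω) z - PP (fun i : Fin N => hc (1 - ε ^ 2) i) z) -
          (0 - PP (fun i : Fin N => ξ i ω) z)‖ := by congr 1; ring
      _ ≤ ‖(F - PP (fun i : Fin N => hc (1 - ε ^ 2) i) z) -
          (PP (fun i : Fin N => ξ i ω) z - PP (fun i : Fin N => hc (1 - ε ^ 2) i) z)‖ +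
          ‖0 - PP (fun i : Fin N => ξ i ω) z‖ := norm_sub_le _ _
      _ ≤ (‖F - PP (fun i : Fin N => hc (1 - ε ^ 2) i) z‖ +
          ‖PP (fun i : Fin N => ξ i ω) z - PP (fun i : Fin N => hc (1 - ε ^ 2) i) z‖) +
          ‖0 - PP (fun i : Fin N => ξ i ω) z‖ := by gcongr; exact norm_sub_le _ _
      _ ≤ _ := by gcongr
  linarith

end Pool.Agent.H67g
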