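import Mathlib
import Pool.Agent.H67g.G4

/-!
The lower bound for the hole probability of a thin rectangle.
-/

set_option autoImplicit false

open Complex Real MeasureTheory ProbabilityTheory

namespace Pool.Agent.H67g

lemma covering {ε r : ℝ} (hr : 0 < r) (hε0 : 0 < ε) (hε : ε ≤ 1) :
    ∃ (J : ℕ) (c : Fin J → ℝ), (J : ℝ) ≤ 3 / ε ∧
      ∀ z ∈ box ε r, ∃ j, ‖z - c j‖ ≤ 2 * ε * r := by
  refine ⟨⌊2 / ε⌋₊ + 1, fun j => -(2 * r) + ε * r * (2 * (j : ℕ) + 1), ?_, ?_⟩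
  · push_cast
    have h1 := Nat.floor_le (show 0 ≤ 2 / ε by positivity)
    have h2 : 1 ≤ 1 / ε := by rw [le_div_iff₀ hε0]; linarith
    have h3 : 3 / ε = 2 / ε + 1 / ε := by ring
    linarith
  · intro z hz
    obtain ⟨hx, hy⟩ := hz
    rw [abs_le] at hx
    have her : 0 < ε * r := mul_pos hε0 hr
    have h0 : 0 ≤ (z.re + 2 * r) / (2 * (ε * r)) := div_nonneg (by linarith) (by positivity)
    have h1 := Nat.floor_le h0
    have h2 := Nat.lt_floor_add_one ((z.re + 2 * r) / (2 * (ε * r)))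
    have hlt : ⌊(z.re + 2 * r) / (2 * (ε * r))⌋₊ < ⌊2 / ε⌋₊ + 1 := by
      rw [Nat.lt_succ_iff]
      apply Nat.floor_le_floor
      rw [div_le_div_iff₀ (by positivity) hε0]
      nlinarith
    refine ⟨⟨_, hlt⟩, ?_⟩
    set k := ⌊(z.re + 2 * r) / (2 * (ε * r))⌋₊ with hk
    rw [le_div_iff₀ (by positivity)] at h1
    rw [div_lt_iff₀ (by positivity)] at h2
    have h3 : |z.re - (-(2 * r) + ε * r * (2 * (k : ℝ) + 1))| ≤ ε * r := by
      rw [abs_le]
      constructor <;> nlinarith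
    have h4 : ‖z - ((-(2 * r) + ε * r * (2 * (k : ℝ) + 1) : ℝ) : ℂ)‖ ^ 2 ≤ (2 * ε * r) ^ 2 := by
      rw [Complex.sq_norm, Complex.normSq_apply]
      simp only [Complex.sub_re, Complex.sub_im, Complex.ofReal_re, Complex.ofReal_im, sub_zero]
      have h5 := pow_le_pow_left₀ (abs_nonneg _) h3 2
      have h6 := pow_le_pow_left₀ (abs_nonneg _) hy 2
      rw [sq_abs] at h5 h6
      nlinarith
    exact le_of_sq_le_sq h4 (by positivity)

lemma exp_dom {ε r : ℝ} (hε0 : 0 < ε) (hε : ε ≤ 1) (hr : 105 / ε ^ 2 ≤ r) :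
    1 ≤ ε ^ 2 * r ^ 2 ∧ 612 * r ^ 2 ≤ Real.exp (3 * (ε ^ 2 * r ^ 2)) ∧
      45696 * (ε ^ 2 * r ^ 2) * r ^ 2 + 3 ≤ Real.exp (3 * (ε ^ 2 * r ^ 2)) := by
  have hr1 : 105 ≤ ε ^ 2 * r := by
    rw [div_le_iff₀ (by positivity)] at hr; linarith
  have hε2 : ε ^ 2 ≤ 1 := by nlinarith
  have hr2 : 105 ≤ r := by
    have hr0 : 0 ≤ r := by
      by_contra hcon
      push Not at hcon
      nlinarith [sq_nonneg ε]
    nlinarith
  set x := ε ^ 2 * r ^ 2 with hx
  have hxr : 105 * r ≤ x := by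
    have : x = (ε ^ 2 * r) * r := by rw [hx]; ring
    rw [this]; nlinarith
  have hexp := Real.pow_div_factorial_le_exp (3 * x) (by nlinarith) 3
  have h3 : ((Nat.factorial 3 : ℕ) : ℝ) = 6 := by norm_num [Nat.factorial]
  rw [h3] at hexp
  have h4 : (3 * x) ^ 3 / 6 = 9 / 2 * x ^ 3 := by ring
  rw [h4] at hexp
  have hx2 : 11025 * r ^ 2 ≤ x ^ 2 := by
    have := pow_le_pow_left₀ (by positivity : (0 : ℝ) ≤ 105 * r) hxr 2
    nlinarith
  have hx1 : 1 ≤ x := by nlinarith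
  have hx3 : x * (11025 * r ^ 2) ≤ x ^ 3 := by
    have := mul_le_mul_of_nonneg_left hx2 (by linarith : 0 ≤ x)
    calc x * (11025 * r ^ 2) ≤ x * x ^ 2 := this
      _ = x ^ 3 := by ring
  have hxr2 : r ^ 2 ≤ x * r ^ 2 := by nlinarith [sq_nonneg r]
  refine ⟨hx1, ?_, ?_⟩
  · refine le_trans ?_ hexp
    nlinarith
  · refine le_trans ?_ hexp
    have : (1 : ℝ) ≤ x * r ^ 2 := by nlinarith
    nlinarith

lemma final_comb {a b : ℝ} {Q : ENNReal}
    (h : ENNReal.ofReal (Real.exp (-a)) ≤ ENNReal.ofReal (Real.exp b) * Q) :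
    ENNReal.ofReal (Real.exp (-(a + b))) ≤ Q := by
  have h1 : Real.exp (-(a + b)) = Real.exp (-b) * Real.exp (-a) := by
    rw [← Real.exp_add]; congr 1; ring
  have h2 : ENNReal.ofReal (Real.exp (-b)) * ENNReal.ofReal (Real.exp b) = 1 := by
    rw [← ENNReal.ofReal_mul (Real.exp_pos _).le, ← Real.exp_add, neg_add_cancel, Real.exp_zero,
      ENNReal.ofReal_one]
  rw [h1, ENNReal.ofReal_mul (Real.exp_pos _).le]
  calc ENNReal.ofReal (Real.exp (-b)) * ENNReal.ofReal (Real.exp (-a))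
      ≤ ENNReal.ofReal (Real.exp (-b)) * (ENNReal.ofReal (Real.exp b) * Q) := by gcongr
    _ = Q := by rw [← mul_assoc, h2, one_mul]

lemma low_aux {r : ℝ} (hr : 1 ≤ r) {N : ℕ} (hN2 : (N : ℝ) ≤ 102 * r ^ 2) :
    ENNReal.ofReal (Real.exp (-(1 + 612 * r ^ 2))) ≤
      (ENNReal.ofReal (Real.exp (-4) / 4)) ^ N * (1 / 2) := by
  have h1 : (1 / 2 : ENNReal) = ENNReal.ofReal (1 / 2) := by
    rw [ENNReal.ofReal_div_of_pos (by norm_num)]; simp
  rw [h1, ← ENNReal.ofReal_pow (by positivity), ← ENNReal.ofReal_mul (by positivity)]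
  apply ENNReal.ofReal_le_ofReal
  have h2 : Real.exp (-6) ≤ Real.exp (-4) / 4 := by
    have h3 : Real.exp (-6) = Real.exp (-4) * Real.exp (-2) := by
      rw [← Real.exp_add]; norm_num
    have h4 : Real.exp (-2) ≤ 1 / 4 := by
      rw [Real.exp_neg, one_div]
      apply inv_anti₀ (by norm_num)
      have h5 : Real.exp 2 = Real.exp 1 ^ 2 := by rw [← Real.exp_nat_mul]; norm_num
      have h6 := Real.add_one_le_exp (1 : ℝ)
      rw [h5]; nlinarith
    rw [h3, div_eq_mul_one_div]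
    exact mul_le_mul_of_nonneg_left h4 (Real.exp_pos _).le
  have h7 : Real.exp (-1) ≤ 1 / 2 := by
    rw [Real.exp_neg, one_div]
    apply inv_anti₀ (by norm_num)
    have h6 := Real.add_one_le_exp (1 : ℝ)
    linarith
  have h8 : Real.exp (-(1 + 612 * r ^ 2)) ≤ Real.exp (N * (-6) + -1) := by
    apply Real.exp_le_exp.2
    nlinarith
  have h9 : Real.exp (N * (-6) + -1) = Real.exp (-6) ^ N * Real.exp (-1) := by
    rw [Real.exp_add, Real.exp_nat_mul]
  have h10 : Real.exp (-6) ^ N ≤ (Real.exp (-4) / 4) ^ N :=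
    pow_le_pow_left₀ (Real.exp_pos _).le h2 N
  rw [h9] at h8
  exact h8.trans (mul_le_mul h10 h7 (Real.exp_pos _).le (by positivity))

/-- The key lower bound: the hole probability in `r K`, `K = [-2,2] × [-ε,ε]`, is at least
`exp (-(1 + 612 r² + 4032 ε³ r⁴))`. -/
theorem hole_lower {Ω : Type*} [MeasurableSpace Ω] {P : Measure Ω} {ξ : ℕ → Ω → ℂ}
    (h : IsIIDGaussian P ξ) {ε r : ℝ} (hε0 : 0 < ε) (hε : ε ≤ 1) (hr : 105 / ε ^ 2 ≤ r) :
    ENNReal.ofReal (Real.exp (-(1 + 612 * r ^ 2 + 4032 * ε ^ 3 * r ^ 4))) ≤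
      P {ω | ∀ z ∈ box ε r, gef ξ ω z ≠ 0} := by
  obtain ⟨hx1, hx2, hx3⟩ := exp_dom hε0 hε hr
  have hε2 : ε ^ 2 ≤ 1 := by nlinarith
  have hr1 : 1 ≤ r := by
    refine le_trans ?_ hr
    rw [le_div_iff₀ (by positivity)]; nlinarith
  have hr0 : 0 < r := by linarith
  set x := ε ^ 2 * r ^ 2 with hx
  obtain ⟨J, c, hJ, hc⟩ := covering hr0 hε0 hε
  have hρ : 0 < 2 * ε * r := by positivity
  have hρ2 : (2 * ε * r) ^ 2 = 4 * x := by rw [hx]; ring
  set N : ℕ := ⌈101 * r ^ 2⌉₊ with hN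
  have hN1 : 101 * r ^ 2 ≤ N := Nat.le_ceil _
  have hN2 : (N : ℝ) ≤ 102 * r ^ 2 := by
    have := Nat.ceil_lt_add_one (show 0 ≤ 101 * r ^ 2 by positivity)
    rw [← hN] at this
    nlinarith
  have hN5 : 5 ≤ N := by
    have : (5 : ℝ) ≤ N := by nlinarith
    exact_mod_cast this
  have hNpos : (0 : ℝ) < N := by
    have : (5 : ℝ) ≤ N := by exact_mod_cast hN5
    linarith
  set M : ℕ := ⌈24 * x⌉₊ with hM
  have hM1 : 24 * x ≤ M := Nat.le_ceil _
  have hM2 : (M : ℝ) ≤ 28 * x := by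
    have := Nat.ceil_lt_add_one (show 0 ≤ 24 * x by positivity)
    rw [← hM] at this
    nlinarith
  have hMpos : (0 : ℝ) < M := by nlinarith
  set η : ℝ := Real.exp (-(3 * x)) / (8 * M) with hη
  have hηpos : 0 < η := by positivity
  set L : ℕ := ⌈N * Real.exp (9 / 2 * (2 * ε * r) ^ 2) / η⌉₊ with hL
  have hL1 : N * Real.exp (9 / 2 * (2 * ε * r) ^ 2) ≤ L * η := by
    have := Nat.le_ceil (N * Real.exp (9 / 2 * (2 * ε * r) ^ 2) / η)
    rwa [← hL, div_le_iff₀ hηpos] at this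
  have hL2 : (2 * (L : ℝ) + 1) ≤ Real.exp (24 * x) := by
    have h1 := Nat.ceil_lt_add_one
      (show 0 ≤ N * Real.exp (9 / 2 * (2 * ε * r) ^ 2) / η by positivity)
    rw [← hL] at h1
    have h2 : N * Real.exp (9 / 2 * (2 * ε * r) ^ 2) / η = 8 * M * N * Real.exp (21 * x) := by
      rw [hρ2, hη, div_div_eq_mul_div, div_eq_iff (Real.exp_pos _).ne']
      rw [mul_assoc (8 * (M : ℝ) * N), ← Real.exp_add]
      rw [show 9 / 2 * (4 * x) = 21 * x + -(3 * x) by ring]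
      ring
    rw [h2] at h1
    have h3 : 8 * (M : ℝ) * N ≤ 8 * (28 * x) * (102 * r ^ 2) := by gcongr
    have h4 : (1 : ℝ) ≤ Real.exp (21 * x) := Real.one_le_exp (by positivity)
    calc 2 * (L : ℝ) + 1 ≤ 2 * (8 * M * N * Real.exp (21 * x) + 1) + 1 := by linarith
      _ ≤ 2 * (8 * (28 * x) * (102 * r ^ 2) * Real.exp (21 * x)) + 3 * Real.exp (21 * x) := by
          have := mul_le_mul_of_nonneg_right h3 (Real.exp_pos (21 * x)).le
          linarith
      _ = (45696 * x * r ^ 2 + 3) * Real.exp (21 * x) := by ring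
      _ ≤ Real.exp (3 * x) * Real.exp (21 * x) :=
          mul_le_mul_of_nonneg_right hx3 (Real.exp_pos _).le
      _ = Real.exp (24 * x) := by rw [← Real.exp_add]; congr 1; ring
  set θ : ℝ := M * (2 * η) + N * Real.exp (9 / 2 * (2 * ε * r) ^ 2) * (1 / 3) ^ M * (3 / 2)
    with hθ
  have hθ1 : θ ≤ 1 / 2 * Real.exp (-(3 * ε ^ 2 * r ^ 2)) := by
    have h1 : (M : ℝ) * (2 * η) = 1 / 4 * Real.exp (-(3 * x)) := by
      rw [hη]; field_simp; ring
    have h2 : ((1 : ℝ) / 3) ^ M ≤ Real.exp (-(24 * x)) := by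
      have h3 : Real.exp (24 * x) ≤ 3 ^ M := by
        calc Real.exp (24 * x) ≤ Real.exp (M * 1) := Real.exp_le_exp.2 (by linarith)
          _ = Real.exp 1 ^ M := by rw [Real.exp_nat_mul]
          _ ≤ 3 ^ M := pow_le_pow_left₀ (Real.exp_pos _).le
              (by have := Real.exp_one_lt_d9; linarith) _
      rw [one_div, inv_pow, Real.exp_neg]
      exact inv_anti₀ (Real.exp_pos _) h3
    have h4 : N * Real.exp (9 / 2 * (2 * ε * r) ^ 2) * (1 / 3) ^ M * (3 / 2) ≤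
        1 / 4 * Real.exp (-(3 * x)) := by
      calc N * Real.exp (9 / 2 * (2 * ε * r) ^ 2) * (1 / 3) ^ M * (3 / 2)
          ≤ (102 * r ^ 2) * Real.exp (9 / 2 * (2 * ε * r) ^ 2) * Real.exp (-(24 * x)) *
            (3 / 2) := by gcongr
        _ = 1 / 4 * (612 * r ^ 2) * Real.exp (-(6 * x)) := by
            have h5 : Real.exp (9 / 2 * (2 * ε * r) ^ 2) * Real.exp (-(24 * x)) =
                Real.exp (-(6 * x)) := by
              rw [hρ2, ← Real.exp_add]; congr 1; ring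
            rw [mul_assoc (102 * r ^ 2), h5]; ring
        _ ≤ 1 / 4 * Real.exp (3 * x) * Real.exp (-(6 * x)) := by gcongr
        _ = 1 / 4 * Real.exp (-(3 * x)) := by
            rw [mul_assoc, ← Real.exp_add]; congr 2; ring
    have h6 : -(3 * ε ^ 2 * r ^ 2) = -(3 * x) := by rw [hx]; ring
    rw [h6, hθ, h1]
    linarith
  set h₀ : Fin N → ℂ := fun i => Pool.Agent.H67g.hc (1 - ε ^ 2) i with hh₀
  have hh1 : ∀ n, ‖h₀ n‖ ≤ 1 := fun n => hc_norm_le (by nlinarith) (by nlinarith) n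
  have hV := volume_AA hρ h₀ hh1 (box ε r) c hc M L hηpos hL1
  rw [← hθ] at hV
  have hP := prob_ge h hN5 (measurableSet_AA h₀ (box ε r) θ) (fun x hx n => hx.1 n)
  have hsub : ({ω | (fun i : Fin N => ξ i ω) ∈ AA h₀ (box ε r) θ} ∩ tailEv ξ N) ⊆
      {ω | ∀ z ∈ box ε r, gef ξ ω z ≠ 0} := by
    rintro ω ⟨h1, h2⟩
    exact no_zero hr1 hε0 hε hN1 hθ1 h1 h2
  have hP2 := hP.trans (measure_mono hsub)
  set Q := P {ω | ∀ z ∈ box ε r, gef ξ ω z ≠ 0} with hQ
  set V := volume (AA h₀ (box ε r) θ) with hVdef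
  -- the number of boxes
  have hK : ((((2 * L + 1) ^ 2) ^ (J * M) : ℕ) : ENNReal) ≤
      ENNReal.ofReal (Real.exp (4032 * ε ^ 3 * r ^ 4)) := by
    have h1 : ((((2 * L + 1) ^ 2) ^ (J * M) : ℕ) : ℝ) ≤ Real.exp (4032 * ε ^ 3 * r ^ 4) := by
      push_cast
      calc ((2 * (L : ℝ) + 1) ^ 2) ^ (J * M) ≤ (Real.exp (24 * x) ^ 2) ^ (J * M) := by gcongr
        _ = Real.exp (((J * M : ℕ) : ℝ) * (2 * (24 * x))) := by
            rw [Real.exp_nat_mul]
            congr 1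
            rw [← Real.exp_nat_mul]; push_cast; rfl
        _ ≤ Real.exp (4032 * ε ^ 3 * r ^ 4) := by
            apply Real.exp_le_exp.2
            push_cast
            have hx0 : 0 ≤ x := by positivity
            calc (J : ℝ) * M * (2 * (24 * x)) ≤ (3 / ε) * (28 * x) * (2 * (24 * x)) := by gcongr
              _ = 4032 * ε ^ 3 * r ^ 4 := by
                rw [hx]; field_simp; ring
    rw [← ENNReal.ofReal_natCast]
    exact ENNReal.ofReal_le_ofReal h1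
  -- combination
  have hstep : (ENNReal.ofReal (Real.exp (-4) / 4)) ^ N * (1 / 2) ≤
      ENNReal.ofReal (Real.exp (4032 * ε ^ 3 * r ^ 4)) * Q := by
    have h1 : c0 * ENNReal.ofReal (Real.pi / 4) = ENNReal.ofReal (Real.exp (-4) / 4) := by
      unfold c0
      rw [← ENNReal.ofReal_mul (by positivity)]
      congr 1
      field_simp
    calc (ENNReal.ofReal (Real.exp (-4) / 4)) ^ N * (1 / 2)
        = c0 ^ N * (ENNReal.ofReal (Real.pi / 4)) ^ N * (1 / 2) := by rw [← h1, mul_pow]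
      _ ≤ c0 ^ N * ((((2 * L + 1) ^ 2) ^ (J * M) : ℕ) * V) * (1 / 2) := by gcongr
      _ = (((2 * L + 1) ^ 2) ^ (J * M) : ℕ) * (c0 ^ N * V * (1 / 2)) := by ring
      _ ≤ ENNReal.ofReal (Real.exp (4032 * ε ^ 3 * r ^ 4)) * Q := by gcongr
  exact final_comb ((low_aux hr1 hN2).trans hstep)

end Pool.Agent.H67g
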