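import Mathlib

/-!
The transfinite diameter.
-/

set_option autoImplicit false

open Complex Real Filter Topology

namespace Pool.Agent.H67g

/-- The product of the mutual distances `∏_{i ≠ j} |z_i - z_j|` (over ordered pairs). -/
noncomputable def vprod {n : ℕ} (z : Fin n → ℂ) : ℝ :=
  ∏ i, ∏ j, if i = j then 1 else ‖z i - z j‖

/-- The `n`-th diameter `d_n(K) = sup (∏_{i ≠ j} |z_i - z_j|) ^ (1 / (n (n - 1)))` over
`z_1, …, z_n ∈ K`. -/
noncomputable def diamN (K : Set ℂ) (n : ℕ) : ℝ :=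
  sSup ((fun z : Fin n → ℂ => (vprod z) ^ (1 / ((n : ℝ) * (n - 1)))) '' {z | ∀ i, z i ∈ K})

lemma vprod_nonneg {n : ℕ} (z : Fin n → ℂ) : 0 ≤ vprod z := by
  unfold vprod
  refine Finset.prod_nonneg fun i _ => Finset.prod_nonneg fun j _ => ?_
  split_ifs
  · exact zero_le_one
  · exact norm_nonneg _

lemma bdd {K : Set ℂ} (hK : IsCompact K) {n : ℕ} (hn : 2 ≤ n) :
    BddAbove ((fun z : Fin n → ℂ => (vprod z) ^ (1 / ((n : ℝ) * (n - 1)))) ''
      {z | ∀ i, z i ∈ K}) := by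
  have h1 : IsCompact {z : Fin n → ℂ | ∀ i, z i ∈ K} := by
    have := isCompact_univ_pi (fun _ : Fin n => hK)
    convert this using 1
    ext z; simp
  have h2 : Continuous (fun z : Fin n → ℂ => (vprod z) ^ (1 / ((n : ℝ) * (n - 1)))) := by
    have h3 : Continuous (fun z : Fin n → ℂ => vprod z) := by
      unfold vprod
      refine continuous_finset_prod _ fun i _ => continuous_finset_prod _ fun j _ => ?_
      split_ifs
      · exact continuous_const
      · fun_prop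
    have h4 : 0 ≤ 1 / ((n : ℝ) * (n - 1)) := by
      have : (2 : ℝ) ≤ n := by exact_mod_cast hn
      have : 0 ≤ (n : ℝ) * (n - 1) := mul_nonneg (by linarith) (by linarith)
      positivity
    exact h3.rpow_const fun z => Or.inr h4
  exact (h1.image h2).bddAbove

lemma le_diamN {K : Set ℂ} (hK : IsCompact K) {n : ℕ} (hn : 2 ≤ n) {z : Fin n → ℂ}
    (hz : ∀ i, z i ∈ K) : (vprod z) ^ (1 / ((n : ℝ) * (n - 1))) ≤ diamN K n :=
  le_csSup (bdd hK hn) ⟨z, hz, rfl⟩

lemma vprod_le {K : Set ℂ} (hK : IsCompact K) {n : ℕ} (hn : 2 ≤ n) {z : Fin n → ℂ}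
    (hz : ∀ i, z i ∈ K) : vprod z ≤ (diamN K n) ^ (n * (n - 1)) := by
  have h1 := le_diamN hK hn hz
  have hn1 : (2 : ℝ) ≤ n := by exact_mod_cast hn
  have hpos : 0 < (n : ℝ) * (n - 1) := mul_pos (by linarith) (by linarith)
  have h2 := pow_le_pow_left₀ (Real.rpow_nonneg (vprod_nonneg z) _) h1 (n * (n - 1))
  refine le_trans (le_of_eq ?_) h2
  rw [← Real.rpow_natCast, ← Real.rpow_mul (vprod_nonneg z)]
  have h3 : ((n * (n - 1) : ℕ) : ℝ) = (n : ℝ) * (n - 1) := by
    rw [Nat.cast_mul, Nat.cast_sub (by omega), Nat.cast_one]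
  rw [h3, one_div_mul_cancel hpos.ne', Real.rpow_one]

/-- Deleting one point: the symmetric product. -/
lemma vprod_delete {n : ℕ} (z : Fin (n + 1) → ℂ) :
    ∏ k : Fin (n + 1), vprod (fun i => z (k.succAbove i)) = (vprod z) ^ (n - 1) := by
  classical
  set F : Fin (n + 1) → Fin (n + 1) → ℝ := fun i j => if i = j then 1 else ‖z i - z j‖ with hF
  have h1 : ∀ k : Fin (n + 1), vprod (fun i => z (k.succAbove i)) =
      ∏ i, ∏ j, if i = k ∨ j = k then 1 else F i j := by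
    intro k
    rw [Fin.prod_univ_succAbove _ k]
    have h2 : (∏ j, if k = k ∨ j = k then (1 : ℝ) else F k j) = 1 := by simp
    rw [h2, one_mul]
    unfold vprod
    refine Finset.prod_congr rfl fun i _ => ?_
    rw [Fin.prod_univ_succAbove _ k]
    simp only [or_true, if_true, one_mul]
    refine Finset.prod_congr rfl fun j _ => ?_
    have h3 : k.succAbove i ≠ k := Fin.succAbove_ne k i
    have h4 : k.succAbove j ≠ k := Fin.succAbove_ne k j
    have h5 : ¬ (k.succAbove i = k ∨ k.succAbove j = k) := by tauto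
    simp only [hF, Fin.succAbove_right_inj, if_neg h5]
  simp_rw [h1]
  rw [Finset.prod_comm]
  unfold vprod
  rw [← Finset.prod_pow]
  refine Finset.prod_congr rfl fun i _ => ?_
  rw [Finset.prod_comm, ← Finset.prod_pow]
  refine Finset.prod_congr rfl fun j _ => ?_
  by_cases hij : i = j
  · subst hij
    simp [hF]
  · have h5 : (∏ k : Fin (n + 1), if i = k ∨ j = k then (1 : ℝ) else F i j) =
        ∏ k ∈ (Finset.univ \ {i, j} : Finset (Fin (n + 1))), F i j := by
      rw [← Finset.prod_sdiff (Finset.subset_univ ({i, j} : Finset (Fin (n + 1))))]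
      have h6 : (∏ k ∈ ({i, j} : Finset (Fin (n + 1))),
          if i = k ∨ j = k then (1 : ℝ) else F i j) = 1 := by
        refine Finset.prod_eq_one fun k hk => ?_
        simp only [Finset.mem_insert, Finset.mem_singleton] at hk
        rw [if_pos]
        rcases hk with rfl | rfl
        · exact Or.inl rfl
        · exact Or.inr rfl
      rw [h6, mul_one]
      refine Finset.prod_congr rfl fun k hk => ?_
      simp only [Finset.mem_sdiff, Finset.mem_univ, true_and, Finset.mem_insert,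
        Finset.mem_singleton, not_or] at hk
      rw [if_neg]
      rintro (h | h)
      · exact hk.1 h.symm
      · exact hk.2 h.symm
    rw [h5, Finset.prod_const]
    congr 1
    rw [Finset.card_sdiff_of_subset (Finset.subset_univ _), Finset.card_univ, Fintype.card_fin,
      Finset.card_pair hij]
    omega

lemma diamN_nonneg {K : Set ℂ} (n : ℕ) : 0 ≤ diamN K n := by
  unfold diamN
  refine Real.sSup_nonneg ?_
  rintro _ ⟨z, _, rfl⟩
  exact Real.rpow_nonneg (vprod_nonneg z) _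

lemma diamN_succ_le {K : Set ℂ} (hK : IsCompact K) {n : ℕ} (hn : 2 ≤ n) :
    diamN K (n + 1) ≤ diamN K n := by
  unfold diamN
  refine Real.sSup_le ?_ (diamN_nonneg n)
  rintro _ ⟨z, hz, rfl⟩
  simp only
  change (vprod z) ^ _ ≤ diamN K n
  have hn1 : (2 : ℝ) ≤ n := by exact_mod_cast hn
  have h1 : (vprod z) ^ (n - 1) ≤ ((diamN K n) ^ (n * (n - 1))) ^ (n + 1) := by
    rw [← vprod_delete]
    calc ∏ k : Fin (n + 1), vprod (fun i => z (k.succAbove i))
        ≤ ∏ _k : Fin (n + 1), (diamN K n) ^ (n * (n - 1)) :=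
          Finset.prod_le_prod (fun k _ => vprod_nonneg _)
            fun k _ => vprod_le hK hn fun i => hz _
      _ = _ := by simp
  have h2 : vprod z ≤ (diamN K n) ^ (n * (n + 1)) := by
    have h3 : ((diamN K n) ^ (n * (n - 1))) ^ (n + 1) = ((diamN K n) ^ (n * (n + 1))) ^ (n - 1) := by
      rw [← pow_mul, ← pow_mul]; congr 1; ring
    rw [h3] at h1
    exact le_of_pow_le_pow_left₀ (by omega) (pow_nonneg (diamN_nonneg n) _) h1
  have hpos : (0 : ℝ) < ((n + 1 : ℕ) : ℝ) * (((n + 1 : ℕ) : ℝ) - 1) := by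
    push_cast
    have : (n : ℝ) + 1 - 1 = n := by ring
    rw [this]; positivity
  calc (vprod z) ^ (1 / (((n + 1 : ℕ) : ℝ) * (((n + 1 : ℕ) : ℝ) - 1)))
      ≤ ((diamN K n) ^ (n * (n + 1))) ^ (1 / (((n + 1 : ℕ) : ℝ) * (((n + 1 : ℕ) : ℝ) - 1))) :=
        Real.rpow_le_rpow (vprod_nonneg z) h2 (by positivity)
    _ = diamN K n := by
        rw [← Real.rpow_natCast, ← Real.rpow_mul (diamN_nonneg n)]
        have h4 : ((n * (n + 1) : ℕ) : ℝ) *
            (1 / (((n + 1 : ℕ) : ℝ) * (((n + 1 : ℕ) : ℝ) - 1))) = 1 := by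
          rw [mul_one_div, div_eq_one_iff_eq hpos.ne']
          push_cast; ring
        rw [h4, Real.rpow_one]

/-- The transfinite diameter of a compact set exists. -/
theorem diamN_tendsto {K : Set ℂ} (hK : IsCompact K) :
    Tendsto (diamN K) atTop (𝓝 (⨅ n : ℕ, diamN K (n + 2))) := by
  have h1 : Antitone fun n : ℕ => diamN K (n + 2) :=
    antitone_nat_of_succ_le fun n => diamN_succ_le hK (by omega)
  have h2 : Tendsto (fun n : ℕ => diamN K (n + 2)) atTop (𝓝 (⨅ n : ℕ, diamN K (n + 2))) :=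
    tendsto_atTop_ciInf h1 ⟨0, by rintro _ ⟨n, rfl⟩; exact diamN_nonneg _⟩
  exact (tendsto_add_atTop_iff_nat 2).1 h2

/-- A monic polynomial takes a value of modulus at least one on `[-2, 2]`. -/
lemma exists_big {n : ℕ} (z : Fin n → ℂ) : ∃ x : ℝ, |x| ≤ 2 ∧ 1 ≤ ∏ i, ‖(x : ℂ) - z i‖ := by
  set Q : ℂ → ℂ := fun ζ => ∏ i, (ζ ^ 2 - z i * ζ + 1) with hQ
  have hd : Differentiable ℂ Q := by
    intro w
    simp only [hQ]
    fun_prop
  obtain ⟨ζ, hζ, hmax⟩ := Complex.exists_mem_frontier_isMaxOn_norm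
    (U := Metric.ball (0 : ℂ) 1) (f := Q) Metric.isBounded_ball ⟨0, by simp⟩
    hd.diffContOnCl
  rw [frontier_ball _ one_ne_zero, mem_sphere_zero_iff_norm] at hζ
  have h0 : ‖Q 0‖ ≤ ‖Q ζ‖ := hmax (subset_closure (by simp))
  have hQ0 : Q 0 = 1 := by simp [hQ]
  rw [hQ0, norm_one] at h0
  have hre : |ζ.re| ≤ 1 := by rw [← hζ]; exact Complex.abs_re_le_norm ζ
  refine ⟨2 * ζ.re, by rw [abs_mul]; norm_num; linarith, ?_⟩
  refine h0.trans (le_of_eq ?_)
  simp only [hQ]
  rw [norm_prod]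
  refine Finset.prod_congr rfl fun i _ => ?_
  have hconj : ζ * (starRingEnd ℂ) ζ = 1 := by
    rw [Complex.mul_conj, Complex.normSq_eq_norm_sq, hζ]; norm_num
  have h1 : ζ ^ 2 - z i * ζ + 1 = ζ * (((2 * ζ.re : ℝ) : ℂ) - z i) := by
    have h2 : ((2 * ζ.re : ℝ) : ℂ) = ζ + (starRingEnd ℂ) ζ := by
      rw [Complex.add_conj]
    rw [h2, mul_sub, mul_add, hconj]; ring
  rw [h1, norm_mul, hζ, one_mul]

lemma vprod_snoc {n : ℕ} (z : Fin n → ℂ) (x : ℂ) :
    vprod (Fin.cons x z : Fin (n + 1) → ℂ) = (∏ i, ‖x - z i‖) ^ 2 * vprod z := by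
  unfold vprod
  rw [Fin.prod_univ_succ]
  simp only [Fin.prod_univ_succ (n := n), Fin.cons_zero, Fin.cons_succ, if_true, one_mul]
  have h1 : ∀ i : Fin n, (if i.succ = 0 then (1 : ℝ) else ‖z i - x‖) = ‖x - z i‖ := by
    intro i
    rw [if_neg (Fin.succ_ne_zero i), norm_sub_rev]
  have h2 : ∀ i : Fin n, (if (0 : Fin (n + 1)) = i.succ then (1 : ℝ) else ‖x - z i‖) =
      ‖x - z i‖ := by
    intro i
    rw [if_neg (Fin.succ_ne_zero i).symm]
  simp only [h1, h2, Fin.succ_inj, Finset.prod_mul_distrib]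
  ring

lemma exists_config (n : ℕ) : ∃ z : Fin n → ℂ, (∀ i, ∃ x : ℝ, |x| ≤ 2 ∧ z i = x) ∧
    1 ≤ vprod z := by
  induction n with
  | zero => exact ⟨fun i => i.elim0, fun i => i.elim0, by simp [vprod]⟩
  | succ n ih =>
    obtain ⟨z, hz, hv⟩ := ih
    obtain ⟨x, hx, hp⟩ := exists_big z
    refine ⟨Fin.cons (x : ℂ) z, ?_, ?_⟩
    · intro i
      refine Fin.cases ?_ (fun j => ?_) i
      · exact ⟨x, hx, by simp⟩
      · simpa using hz j
    · rw [vprod_snoc]
      have h1 : 1 ≤ (∏ i, ‖(x : ℂ) - z i‖) ^ 2 := one_le_pow₀ hp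
      nlinarith

/-- Sets containing `[-2, 2]` have all diameters at least one. -/
theorem one_le_diamN {K : Set ℂ} (hK : IsCompact K) (h : ∀ x : ℝ, |x| ≤ 2 → (x : ℂ) ∈ K) {n : ℕ}
    (hn : 2 ≤ n) : 1 ≤ diamN K n := by
  obtain ⟨z, hz, hv⟩ := exists_config n
  refine le_trans ?_ (le_diamN hK hn (z := z) ?_)
  · have hn1 : (2 : ℝ) ≤ n := by exact_mod_cast hn
    have hpos : 0 < (n : ℝ) * (n - 1) := mul_pos (by linarith) (by linarith)
    exact Real.one_le_rpow hv (by positivity)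
  · intro i
    obtain ⟨x, hx, hxz⟩ := hz i
    rw [hxz]; exact h x hx

theorem one_le_cap {K : Set ℂ} (hK : IsCompact K) (h : ∀ x : ℝ, |x| ≤ 2 → (x : ℂ) ∈ K) :
    1 ≤ ⨅ n : ℕ, diamN K (n + 2) :=
  le_ciInf fun n => one_le_diamN hK h (by omega)

end Pool.Agent.H67g
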