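import Mathlib
import Pool.Agent.H67g.G4

/-!
The hole event is an event: almost sure summability and measurability.
-/

set_option autoImplicit false

open Complex Real MeasureTheory ProbabilityTheory Filter Topology

namespace Pool.Agent.H67g

variable {Ω : Type*} [MeasurableSpace Ω] {P : Measure Ω} {ξ : ℕ → Ω → ℂ}

lemma ae_tailEv (h : IsIIDGaussian P ξ) : ∀ᵐ ω ∂P, ∃ N, ω ∈ tailEv ξ N := by
  have h1 : ∑' m : ℕ, P {ω | Real.exp ((m + 5 : ℕ) : ℝ) < ‖ξ (m + 5) ω‖ ^ 2} ≠ ⊤ := by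
    have hle : ∑' m : ℕ, P {ω | Real.exp ((m + 5 : ℕ) : ℝ) < ‖ξ (m + 5) ω‖ ^ 2} ≤
        ∑' m : ℕ, ENNReal.ofReal ((1 / 2) ^ (m + 2)) := by
      refine ENNReal.tsum_le_tsum fun m => ?_
      have h3 : P {ω | Real.exp ((m + 5 : ℕ) : ℝ) < ‖ξ (m + 5) ω‖ ^ 2} =
          stdComplexGaussian {w : ℂ | Real.exp ((m + 5 : ℕ) : ℝ) < ‖w‖ ^ 2} := by
        rw [← h.law (m + 5), Measure.map_apply (h.meas _)
          (measurableSet_lt measurable_const (by fun_prop))]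
        rfl
      rw [h3]
      refine (gauss_tail _).trans (ENNReal.ofReal_le_ofReal ?_)
      refine (exp_bound (by omega)).trans ?_
      exact pow_le_pow_of_le_one (by norm_num) (by norm_num) (by omega)
    have hsum : Summable (fun m : ℕ => (1 / 2 : ℝ) ^ (m + 2)) :=
      (summable_nat_add_iff 2).2 (summable_geometric_of_lt_one (by norm_num) (by norm_num))
    refine ne_top_of_le_ne_top ?_ hle
    rw [← ENNReal.ofReal_tsum_of_nonneg (fun m => by positivity) hsum]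
    exact ENNReal.ofReal_ne_top
  have h2 := ae_eventually_notMem h1
  filter_upwards [h2] with ω hω
  obtain ⟨N, hN⟩ := eventually_atTop.1 hω
  refine ⟨N + 5, fun n hn => ?_⟩
  have h4 := hN (n - 5) (by omega)
  have h5 : n - 5 + 5 = n := by omega
  simp only [Set.mem_ofPred_eq, not_lt, h5] at h4
  exact h4

/-- The partial sums. -/
noncomputable def SS (ξ : ℕ → Ω → ℂ) (m : ℕ) (ω : Ω) (z : ℂ) : ℂ :=
  ∑ n ∈ Finset.range m, ξ n ω * (z ^ n / (Real.sqrt (n.factorial) : ℂ))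

lemma SS_close {N : ℕ} {ω : Ω} (hω : ω ∈ tailEv ξ N) {R : ℝ} {m : ℕ} (hm : N ≤ m) (hm0 : 0 < m)
    (hmR : Real.exp 3 * R ^ 2 ≤ m) {z : ℂ} (hz : ‖z‖ ≤ R) :
    ‖gef ξ ω z - SS ξ m ω z‖ ≤ 3 * Real.exp (-(m : ℝ) / 2) := by
  have h1 : Real.exp 3 * ‖z‖ ^ 2 ≤ m := by
    refine le_trans ?_ hmR
    have := pow_le_pow_left₀ (norm_nonneg z) hz 2
    exact mul_le_mul_of_nonneg_left this (Real.exp_pos _).le
  have h2 := (tail_sum (x := fun n => ξ n ω) (fun n hn => hω n (hm.trans hn)) h1 hm0).2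
  have h5 : PP (fun i : Fin m => ξ i ω) z = SS ξ m ω z := by
    unfold PP SS
    exact Fin.sum_univ_eq_sum_range
      (fun n => ξ n ω * (z ^ n / (Real.sqrt (n.factorial) : ℂ))) m
  rw [h5] at h2
  exact h2

lemma SS_unif {N : ℕ} {ω : Ω} (hω : ω ∈ tailEv ξ N) (R : ℝ) :
    TendstoUniformlyOn (fun m => SS ξ m ω) (gef ξ ω) atTop {z : ℂ | ‖z‖ ≤ R} := by
  rw [Metric.tendstoUniformlyOn_iff]
  intro δ hδ
  have h1 : Tendsto (fun m : ℕ => 3 * Real.exp (-(m : ℝ) / 2)) atTop (𝓝 0) := by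
    have h2 : Tendsto (fun m : ℕ => -(m : ℝ) / 2) atTop atBot := by
      have h3 : Tendsto (fun m : ℕ => (m : ℝ) / 2) atTop atTop :=
        tendsto_natCast_atTop_atTop.atTop_div_const (by norm_num)
      have h4 := tendsto_neg_atTop_atBot.comp h3
      refine h4.congr fun m => ?_
      simp only [Function.comp_apply]; ring
    have h5 := (Real.tendsto_exp_atBot.comp h2).const_mul 3
    simpa using h5
  filter_upwards [h1.eventually (gt_mem_nhds hδ), eventually_ge_atTop N, eventually_gt_atTop 0,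
    eventually_ge_atTop ⌈Real.exp 3 * R ^ 2⌉₊] with m hm hmN hm0 hmR z hz
  rw [dist_eq_norm]
  exact lt_of_le_of_lt (SS_close hω hmN hm0 (Nat.ceil_le.1 hmR) hz) hm

lemma SS_continuous (m : ℕ) (ω : Ω) : Continuous (SS ξ m ω) := by
  unfold SS
  fun_prop

lemma gef_continuousOn {N : ℕ} {ω : Ω} (hω : ω ∈ tailEv ξ N) (R : ℝ) :
    ContinuousOn (gef ξ ω) {z : ℂ | ‖z‖ ≤ R} :=
  (SS_unif hω R).continuousOn (Frequently.of_forall fun m => (SS_continuous m ω).continuousOn)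

lemma SS_measurable (hm : ∀ n, Measurable (ξ n)) (m : ℕ) (z : ℂ) :
    Measurable fun ω => SS ξ m ω z := by
  unfold SS
  exact Finset.measurable_sum _ fun n _ => (hm n).mul_const _

/-- The hole event, for a compact set. -/
def holeEv (ξ : ℕ → Ω → ℂ) (D : Set ℂ) : Set Ω := {ω | ∀ z ∈ D, gef ξ ω z ≠ 0}

lemma hole_iff {D : Set ℂ} (hD : IsCompact D) {S : Set ℂ} (hSD : S ⊆ D) (hDS : D ⊆ closure S)
    {N : ℕ} {ω : Ω} (hω : ω ∈ tailEv ξ N) :
    ω ∈ holeEv ξ D ↔ ∃ k : ℕ, ∃ m₀ : ℕ, ∀ m, m₀ ≤ m → ∀ z ∈ S, 1 / ((k : ℝ) + 1) ≤ ‖SS ξ m ω z‖ := by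
  obtain ⟨R, hR⟩ := hD.isBounded.exists_norm_le
  have hcont := gef_continuousOn hω R
  constructor
  · intro hh
    rcases D.eq_empty_or_nonempty with rfl | hne
    · exact ⟨0, 0, fun m _ z hz => absurd (hSD hz) (by simp)⟩
    · obtain ⟨z₀, hz₀, hmin⟩ := hD.exists_isMinOn hne (hcont.norm.mono hR)
      have hpos : 0 < ‖gef ξ ω z₀‖ := norm_pos_iff.2 (hh z₀ hz₀)
      obtain ⟨k, hk⟩ := exists_nat_one_div_lt (half_pos hpos)
      have hunif := Metric.tendstoUniformlyOn_iff.1 (SS_unif hω R) _ (half_pos hpos)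
      obtain ⟨m₀, hm₀⟩ := eventually_atTop.1 hunif
      refine ⟨k, m₀, fun m hm z hz => ?_⟩
      have h1 := hm₀ m hm z (hR z (hSD hz))
      rw [dist_eq_norm] at h1
      have h2 : ‖gef ξ ω z₀‖ ≤ ‖gef ξ ω z‖ := hmin (hSD hz)
      have h3 : ‖gef ξ ω z‖ ≤ ‖gef ξ ω z - SS ξ m ω z‖ + ‖SS ξ m ω z‖ := by
        have := norm_add_le (gef ξ ω z - SS ξ m ω z) (SS ξ m ω z)
        rwa [sub_add_cancel] at this
      linarith
  · rintro ⟨k, m₀, hk⟩ z hz h0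
    have h1 : ∀ m, m₀ ≤ m → 1 / ((k : ℝ) + 1) ≤ ‖SS ξ m ω z‖ := by
      intro m hm
      have hcl : IsClosed {w : ℂ | 1 / ((k : ℝ) + 1) ≤ ‖SS ξ m ω w‖} :=
        isClosed_le continuous_const (SS_continuous m ω).norm
      exact closure_minimal (fun w hw => hk m hm w hw) hcl (hDS hz)
    have h2 : Tendsto (fun m => SS ξ m ω z) atTop (𝓝 (gef ξ ω z)) :=
      (SS_unif hω R).tendsto_at (hR z hz)
    have h3 : 1 / ((k : ℝ) + 1) ≤ ‖gef ξ ω z‖ :=
      ge_of_tendsto h2.norm (eventually_atTop.2 ⟨m₀, h1⟩)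
    rw [h0, norm_zero] at h3
    have : (0 : ℝ) < 1 / ((k : ℝ) + 1) := Nat.one_div_pos_of_nat
    linarith

/-- The hole event of a compact set is measurable up to a null set. -/
theorem nullMeasurable_holeEv (h : IsIIDGaussian P ξ) {D : Set ℂ} (hD : IsCompact D) :
    NullMeasurableSet (holeEv ξ D) P := by
  obtain ⟨S, hSD, hScount, hDS⟩ := (TopologicalSpace.IsSeparable.of_separableSpace D).exists_countable_dense_subset
  set B : Set Ω := ⋃ N : ℕ, (tailEv ξ N ∩ {ω | ∃ k : ℕ, ∃ m₀ : ℕ, ∀ m, m₀ ≤ m →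
    ∀ z ∈ S, 1 / ((k : ℝ) + 1) ≤ ‖SS ξ m ω z‖}) with hB
  have hBm : MeasurableSet B := by
    refine MeasurableSet.iUnion fun N => (measurable_tailEv h N).inter ?_
    have : {ω | ∃ k : ℕ, ∃ m₀ : ℕ, ∀ m, m₀ ≤ m →
        ∀ z ∈ S, 1 / ((k : ℝ) + 1) ≤ ‖SS ξ m ω z‖} =
        ⋃ k : ℕ, ⋃ m₀ : ℕ, ⋂ m : ℕ, ⋂ (_ : m₀ ≤ m), ⋂ z ∈ S,
          {ω | 1 / ((k : ℝ) + 1) ≤ ‖SS ξ m ω z‖} := by
      ext ω; simp
    rw [this]
    refine MeasurableSet.iUnion fun k => MeasurableSet.iUnion fun m₀ => MeasurableSet.iInter fun m =>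
      MeasurableSet.iInter fun _ => MeasurableSet.biInter hScount fun z _ => ?_
    exact measurableSet_le measurable_const (SS_measurable h.meas m z).norm
  refine (hBm.nullMeasurableSet).congr ?_
  filter_upwards [ae_tailEv h] with ω hω
  obtain ⟨N, hN⟩ := hω
  apply propext
  change ω ∈ B ↔ ω ∈ holeEv ξ D
  rw [hole_iff hD hSD hDS hN]
  constructor
  · intro hω
    obtain ⟨N', hN', hω'⟩ := Set.mem_iUnion.1 hω
    exact hω'
  · intro hω
    exact Set.mem_iUnion.2 ⟨N, hN, hω⟩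

end Pool.Agent.H67g
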